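import Pool.Agent.H22.HF.Div
import Pool.Agent.H22.HF.Fac

/-!
# SB/An Bez: a power of `x` is a combination of two germs with an isolated common zero

`a`, `b` analytic at `0` in `ℂ × ℂ`, `a (0, ·)` not zero near `0`, isolated common zero.  For `x` near `0` let `r i` be the zeros of
`a (x, ·)` in the disc of radius `ρ`, `χ (x, T) = ∏ (T - b (x, r i))`: analytic (`power_sum`, `esymm_newton`).  `χ (x, b (x, y))` is
divisible by `a (x, y)` (Cauchy integral of the quotient), `χ (x, T) - χ (x, 0)` by `T`.  So `χ (x, 0) ∈ (a, b)`, and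
`χ (x, 0) ≠ 0` for `x ≠ 0`, so it is `x ^ M` times a unit.
-/

set_option autoImplicit false

open Metric Set Filter Topology

namespace Pool.Agent.SB.Bez

open Pool.Agent.H22.HF

/-- the normalised contour integral -/
noncomputable def AA {E : Type} [NormedAddCommGroup E] [NormedSpace ℂ E] (g : E × ℂ → ℂ) (ρ : ℝ) (H : E × ℂ → ℂ) (p : E) : ℂ :=
  (2 * Real.pi * Complex.I)⁻¹ * ∮ t in C(0, ρ), H (p, t) * fderiv ℂ g (p, t) (0, 1) / g (p, t)

theorem AA_analytic {E : Type} [NormedAddCommGroup E] [NormedSpace ℂ E] [FiniteDimensional ℂ E] {g H : E × ℂ → ℂ} {ρ : ℝ} (hρ : 0 < ρ) {p : E}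
    (hg : ∀ t ∈ sphere (0 : ℂ) ρ, AnalyticAt ℂ g (p, t)) (hH : ∀ t ∈ sphere (0 : ℂ) ρ, AnalyticAt ℂ H (p, t)) (hn : ∀ t ∈ sphere (0 : ℂ) ρ, g (p, t) ≠ 0) :
    AnalyticAt ℂ (AA g ρ H) p := by
  unfold AA
  refine analyticAt_const.mul (analyticAt_circleIntegral (F := fun z => H z * fderiv ℂ g z (0, 1) / g z) hρ ?_)
  intro t ht
  refine ((hH t ht).mul ?_).div (hg t ht) (hn t ht)
  exact (ContinuousLinearMap.analyticAt (ContinuousLinearMap.apply ℂ ℂ ((0, 1) : E × ℂ)) _).comp (hg t ht).fderiv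

theorem AA_eq {E : Type} [NormedAddCommGroup E] [NormedSpace ℂ E] [FiniteDimensional ℂ E] {g H : E × ℂ → ℂ} {ρ : ℝ} (hρ : 0 < ρ) {p : E}
    (hg : ∀ t ∈ closedBall (0 : ℂ) ρ, AnalyticAt ℂ g (p, t)) (hH : ∀ t ∈ closedBall (0 : ℂ) ρ, AnalyticAt ℂ H (p, t))
    {w : ℂ → ℂ} {ν : ℕ} {r : Fin ν → ℂ} (hr : ∀ i, ‖r i‖ < ρ) (hw : ∀ t ∈ closedBall (0 : ℂ) ρ, AnalyticAt ℂ w t ∧ w t ≠ 0)
    (hφ : ∀ t ∈ closedBall (0 : ℂ) ρ, (fun t => g (p, t)) =ᶠ[𝓝 t] fun t => (∏ i, (t - r i)) * w t) :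
    AA g ρ H p = ∑ i, H (p, r i) := by
  have hin : ∀ t : ℂ, AnalyticAt ℂ (fun t : ℂ => ((p, t) : E × ℂ)) t := fun t => analyticAt_const.prod analyticAt_id
  have hps := power_sum (H := fun t => H (p, t)) hρ hr hw hφ (fun t ht => (hH t ht).comp (hin t))
  have hint : (∮ t in C(0, ρ), H (p, t) * fderiv ℂ g (p, t) (0, 1) / g (p, t)) = ∮ t in C(0, ρ), H (p, t) * deriv (fun t => g (p, t)) t / g (p, t) := by
    refine circleIntegral.integral_congr hρ.le (fun t ht => ?_)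
    have h1 : HasFDerivAt g (fderiv ℂ g (p, t)) (p, t) := (hg t (sphere_subset_closedBall ht)).differentiableAt.hasFDerivAt
    have h2 : HasDerivAt (fun t : ℂ => ((p, t) : E × ℂ)) ((0, 1) : E × ℂ) t := (hasDerivAt_const t p).prodMk (hasDerivAt_id t)
    have h3 : HasDerivAt (fun t => g (p, t)) (fderiv ℂ g (p, t) (0, 1)) t := h1.comp_hasDerivAt t h2
    simp only [h3.deriv]
  unfold AA
  rw [hint, hps, ← mul_assoc, inv_mul_cancel₀, one_mul]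
  exact Complex.two_pi_I_ne_zero

/-- the characteristic polynomial of the multiplication by `b` modulo `a` -/
theorem exists_chi {a b : ℂ × ℂ → ℂ} (ha : AnalyticAt ℂ a 0) (hb : AnalyticAt ℂ b 0) (h0 : ¬ ∀ᶠ y in 𝓝 (0 : ℂ), a (0, y) = 0)
    {ε : ℝ} (hε : 0 < ε) :
    ∃ (ρ : ℝ) (ν : ℕ) (χ : ℂ × ℂ → ℂ), 0 < ρ ∧ ρ ≤ ε ∧ (∀ t ∈ sphere (0 : ℂ) ρ, a (0, t) ≠ 0) ∧
      (∀ t ∈ closedBall (0 : ℂ) ρ, AnalyticAt ℂ a (0, t) ∧ AnalyticAt ℂ b (0, t)) ∧ (∀ T, AnalyticAt ℂ χ (0, T)) ∧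
      ∀ᶠ x in 𝓝 (0 : ℂ), (∀ t ∈ closedBall (0 : ℂ) ρ, AnalyticAt ℂ a (x, t) ∧ AnalyticAt ℂ b (x, t)) ∧
        (∀ t ∈ sphere (0 : ℂ) ρ, a (x, t) ≠ 0) ∧
        ∃ (r : Fin ν → ℂ) (w : ℂ → ℂ), (∀ i, ‖r i‖ < ρ) ∧ (∀ t ∈ closedBall (0 : ℂ) ρ, AnalyticAt ℂ w t ∧ w t ≠ 0) ∧
          (∀ t ∈ closedBall (0 : ℂ) ρ, (fun t => a (x, t)) =ᶠ[𝓝 t] fun t => (∏ i, (t - r i)) * w t) ∧
          ∀ T, χ (x, T) = ∏ i, (T - b (x, r i)) := by
  obtain ⟨δ, hδ, hball⟩ := Metric.eventually_nhds_iff_ball.mp (ha.eventually_analyticAt.and hb.eventually_analyticAt)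
  have hg1 : AnalyticAt ℂ (fun t : ℂ => a (0, t)) 0 := by
    have h1 : AnalyticAt ℂ (fun t : ℂ => ((0, t) : ℂ × ℂ)) 0 := analyticAt_const.prod analyticAt_id
    exact AnalyticAt.comp (g := a) (f := fun t : ℂ => ((0, t) : ℂ × ℂ)) ha h1
  have hne : ∀ᶠ t in 𝓝[≠] (0 : ℂ), a (0, t) ≠ 0 := hg1.eventually_eq_zero_or_eventually_ne_zero.resolve_left h0
  rw [eventually_nhdsWithin_iff] at hne
  obtain ⟨δ₁, hδ₁, hball₁⟩ := Metric.eventually_nhds_iff_ball.mp hne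
  set ρ : ℝ := min ε (min (δ / 2) (δ₁ / 2)) with hρdef
  have hρ : 0 < ρ := lt_min hε (lt_min (by linarith) (by linarith))
  have hρε : ρ ≤ ε := min_le_left _ _
  have hρδ : ρ < δ := lt_of_le_of_lt ((min_le_right _ _).trans (min_le_left _ _)) (by linarith)
  have hρδ₁ : ρ < δ₁ := lt_of_le_of_lt ((min_le_right _ _).trans (min_le_right _ _)) (by linarith)
  have han : ∀ x : ℂ, ‖x‖ < δ → ∀ t ∈ closedBall (0 : ℂ) ρ, AnalyticAt ℂ a (x, t) ∧ AnalyticAt ℂ b (x, t) := by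
    intro p hp t ht
    apply hball
    rw [mem_ball_zero_iff, Prod.norm_def]
    rw [mem_closedBall_zero_iff] at ht
    exact max_lt hp (lt_of_le_of_lt ht hρδ)
  have hn0 : ∀ t ∈ sphere (0 : ℂ) ρ, a (0, t) ≠ 0 := by
    intro t ht
    rw [mem_sphere_zero_iff_norm] at ht
    refine hball₁ t (by rw [mem_ball_zero_iff, ht]; exact hρδ₁) ?_
    rintro rfl
    rw [norm_zero] at ht
    exact hρ.ne ht
  have hev1 : ∀ᶠ p in 𝓝 (0 : ℂ), ‖p‖ < δ := by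
    have := Metric.ball_mem_nhds (0 : ℂ) hδ
    filter_upwards [this] with p hp
    simpa using hp
  have hδ0 : ‖(0 : ℂ)‖ < δ := by simpa using hδ
  have hev2 : ∀ᶠ p in 𝓝 (0 : ℂ), ∀ t ∈ sphere (0 : ℂ) ρ, a (p, t) ≠ 0 := by
    refine IsCompact.eventually_forall_of_forall_eventually (isCompact_sphere (0 : ℂ) ρ) (P := fun (p : ℂ) (t : ℂ) => a (p, t) ≠ 0) ?_
    intro t ht
    have hc : ContinuousAt a (0, t) := ((han 0 hδ0 t (sphere_subset_closedBall ht)).1).continuousAt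
    exact hc.eventually_ne (hn0 t ht)
  have hfac : ∀ p : ℂ, ‖p‖ < δ → (∀ t ∈ sphere (0 : ℂ) ρ, a (p, t) ≠ 0) →
      ∃ (ν : ℕ) (r : Fin ν → ℂ) (w : ℂ → ℂ), (∀ i, ‖r i‖ < ρ) ∧ (∀ t ∈ closedBall (0 : ℂ) ρ, AnalyticAt ℂ w t ∧ w t ≠ 0) ∧
      ∀ t ∈ closedBall (0 : ℂ) ρ, (fun t => a (p, t)) =ᶠ[𝓝 t] fun t => (∏ i, (t - r i)) * w t := by
    intro p hp hn
    refine exists_fac hρ (fun t ht => ?_) hn
    have hin : AnalyticAt ℂ (fun t : ℂ => ((p, t) : ℂ × ℂ)) t := analyticAt_const.prod analyticAt_id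
    exact (han p hp t ht).1.comp hin
  obtain ⟨ν, r₀, w₀, hr₀, hw₀, hφ₀⟩ := hfac 0 hδ0 hn0
  have hA1 : AA a ρ (fun _ => 1) 0 = (ν : ℂ) := by
    rw [AA_eq hρ (fun t ht => (han 0 hδ0 t ht).1) (fun t _ => analyticAt_const) hr₀ hw₀ hφ₀]
    simp
  have hA1c : ContinuousAt (AA a ρ (fun _ => 1)) 0 :=
    (AA_analytic hρ (fun t ht => (han 0 hδ0 t (sphere_subset_closedBall ht)).1) (fun t _ => analyticAt_const) hn0).continuousAt
  have hev3 : ∀ᶠ p in 𝓝 (0 : ℂ), ‖AA a ρ (fun _ => 1) p - (ν : ℂ)‖ < 1 := by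
    have := Metric.continuousAt_iff.mp hA1c 1 one_pos
    obtain ⟨η, hη, hη'⟩ := this
    filter_upwards [Metric.ball_mem_nhds (0 : ℂ) hη] with p hp
    have h2 := hη' hp
    rwa [dist_eq_norm, hA1] at h2
  obtain ⟨P, hP⟩ := esymm_newton ν
  -- the functions of three variables
  let g : (ℂ × ℂ) × ℂ → ℂ := fun z => a (z.1.1, z.2)
  let H : (ℂ × ℂ) × ℂ → ℂ := fun z => z.1.2 - b (z.1.1, z.2)
  have hpr : ∀ z : (ℂ × ℂ) × ℂ, AnalyticAt ℂ (fun z : (ℂ × ℂ) × ℂ => ((z.1.1, z.2) : ℂ × ℂ)) z := fun z =>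
    ((analyticAt_fst.comp analyticAt_fst).prod analyticAt_snd)
  have hpT : ∀ z : (ℂ × ℂ) × ℂ, AnalyticAt ℂ (fun z : (ℂ × ℂ) × ℂ => z.1.2) z := fun z =>
    analyticAt_snd.comp analyticAt_fst
  have hg : ∀ x : ℂ, ‖x‖ < δ → ∀ T, ∀ t ∈ closedBall (0 : ℂ) ρ, AnalyticAt ℂ g ((x, T), t) := fun x hx T t ht =>
    AnalyticAt.comp (g := a) (f := fun z : (ℂ × ℂ) × ℂ => ((z.1.1, z.2) : ℂ × ℂ)) (x := ((x, T), t))
      (han x hx t ht).1 (hpr _)
  have hH : ∀ x : ℂ, ‖x‖ < δ → ∀ T, ∀ t ∈ closedBall (0 : ℂ) ρ, AnalyticAt ℂ H ((x, T), t) := fun x hx T t ht =>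
    (hpT _).sub (AnalyticAt.comp (g := b) (f := fun z : (ℂ × ℂ) × ℂ => ((z.1.1, z.2) : ℂ × ℂ)) (x := ((x, T), t))
      (han x hx t ht).2 (hpr _))
  refine ⟨ρ, ν, fun p => MvPolynomial.aeval (fun k : Fin ν => AA g ρ (fun z => H z ^ ((k : ℕ) + 1)) p) P, hρ, hρε, hn0,
    han 0 hδ0, ?_, ?_⟩
  · intro T
    refine AnalyticAt.aeval_mvPolynomial (fun k => ?_) P
    exact AA_analytic hρ (fun t ht => hg 0 hδ0 T t (sphere_subset_closedBall ht))
      (fun t ht => (hH 0 hδ0 T t (sphere_subset_closedBall ht)).pow _) hn0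
  · filter_upwards [hev1, hev2, hev3] with x hx hn h3
    obtain ⟨ν', r, w, hr, hw, hφ⟩ := hfac x hx hn
    have hA1' : AA a ρ (fun _ => 1) x = (ν' : ℂ) := by
      rw [AA_eq hρ (fun t ht => (han x hx t ht).1) (fun t _ => analyticAt_const) hr hw hφ]
      simp
    have hνν : ν' = ν := by
      rw [hA1'] at h3
      have h4 : ‖(((ν' : ℤ) - (ν : ℤ) : ℤ) : ℂ)‖ < 1 := by push_cast; exact h3
      rw [Complex.norm_intCast] at h4
      have h5 : |(ν' : ℤ) - (ν : ℤ)| < 1 := by exact_mod_cast h4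
      rw [Int.abs_lt_one_iff] at h5
      omega
    subst hνν
    refine ⟨han x hx, hn, r, w, hr, hw, hφ, fun T => ?_⟩
    show MvPolynomial.aeval (fun k : Fin ν' => AA g ρ (fun z => H z ^ ((k : ℕ) + 1)) (x, T)) P = _
    have h6 : ∀ k : Fin ν', AA g ρ (fun z => H z ^ ((k : ℕ) + 1)) (x, T) = ∑ i, (T - b (x, r i)) ^ ((k : ℕ) + 1) := fun k =>
      AA_eq (H := fun z => H z ^ ((k : ℕ) + 1)) hρ (fun t ht => hg x hx T t ht)
        (fun t ht => (hH x hx T t ht).fun_pow _) hr hw hφ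
    rw [funext h6, MvPolynomial.aeval_eq_eval, hP (fun i => T - b (x, r i))]

/-- division by the second coordinate -/
theorem exists_div_snd {F : ℂ × ℂ → ℂ} (hF : AnalyticAt ℂ F 0) (h0 : ∀ᶠ x in 𝓝 (0 : ℂ), F (x, 0) = 0) :
    ∃ κ : ℂ × ℂ → ℂ, AnalyticAt ℂ κ 0 ∧ ∀ᶠ p : ℂ × ℂ in 𝓝 0, F p = p.2 * κ p := by
  by_cases hz : ∀ᶠ p : ℂ × ℂ in 𝓝 0, F p = 0
  · refine ⟨fun _ => 0, analyticAt_const, ?_⟩
    filter_upwards [hz] with p hp
    rw [hp, mul_zero]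
  let g : ℂ × ℂ → ℂ := fun p => F p.swap
  have hsw : ∀ p : ℂ × ℂ, AnalyticAt ℂ (fun p : ℂ × ℂ => p.swap) p := fun p =>
    analyticAt_snd.prod analyticAt_fst
  have hswc : Tendsto (fun p : ℂ × ℂ => p.swap) (𝓝 0) (𝓝 0) := by
    have := (hsw 0).continuousAt.tendsto
    simpa using this
  have hg : AnalyticAt ℂ g 0 := AnalyticAt.comp (g := F) (f := fun p : ℂ × ℂ => p.swap) hF (hsw 0)
  have hne : ¬ ∀ᶠ y in 𝓝 (0 : ℂ × ℂ), g y = 0 := by
    intro h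
    refine hz ?_
    filter_upwards [hswc.eventually h] with p hp
    have h1 : g p.swap = 0 := hp
    simpa [g] using h1
  obtain ⟨k, g', hg', hgk, hgn⟩ := exists_div hg hne
  cases k with
  | zero =>
    exfalso
    refine hgn ?_
    have h1 : Tendsto (fun x : ℂ => ((0, x) : ℂ × ℂ)) (𝓝 0) (𝓝 0) := by
      have h2 : Continuous fun x : ℂ => ((0, x) : ℂ × ℂ) := by fun_prop
      exact h2.tendsto 0
    filter_upwards [h1.eventually hgk, h0] with x hx hx0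
    have h2 : g (0, x) = F (x, 0) := rfl
    rw [h2, hx0] at hx
    simpa using hx.symm
  | succ k =>
    refine ⟨fun p => p.2 ^ k * g' p.swap, ?_, ?_⟩
    · exact (analyticAt_snd.pow k).mul (AnalyticAt.comp (g := g') (f := fun p : ℂ × ℂ => p.swap) hg' (hsw 0))
    · filter_upwards [hswc.eventually hgk] with p hp
      have h1 : g p.swap = F p := by simp [g]
      rw [h1] at hp
      rw [hp, Prod.fst_swap, pow_succ]
      ring

/-- **A power of `x` in the ideal.** -/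
theorem exists_bezout {a b : ℂ × ℂ → ℂ} (ha : AnalyticAt ℂ a 0) (hb : AnalyticAt ℂ b 0) (h0 : ¬ ∀ᶠ y in 𝓝 (0 : ℂ), a (0, y) = 0)
    (hiso : ∀ᶠ p in 𝓝 (0 : ℂ × ℂ), p ≠ 0 → a p ≠ 0 ∨ b p ≠ 0) :
    ∃ (M : ℕ) (h k : ℂ × ℂ → ℂ), AnalyticAt ℂ h 0 ∧ AnalyticAt ℂ k 0 ∧
      ∀ᶠ p in 𝓝 (0 : ℂ × ℂ), p.1 ^ M = a p * h p + b p * k p := by
  by_cases hb0 : b 0 = 0
  swap
  · refine ⟨0, fun _ => 0, fun p => (b p)⁻¹, analyticAt_const, hb.inv hb0, ?_⟩
    filter_upwards [hb.continuousAt.eventually_ne hb0] with p hp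
    rw [pow_zero, mul_zero, zero_add, mul_inv_cancel₀ hp]
  obtain ⟨ε, hε, hεb⟩ := Metric.eventually_nhds_iff_ball.mp hiso
  obtain ⟨ρ, ν, χ, hρ, hρε, hn0, han0, hχ, hev⟩ := exists_chi ha hb h0 (ε := ε / 2) (by linarith)
  have hρε' : ρ < ε := by linarith
  -- the quotient of `χ (x, b (x, y))` by `a (x, y)`
  let G : ℂ × ℂ → ℂ := fun p => χ (p.1, b p)
  let h : ℂ × ℂ → ℂ := fun p => (2 * Real.pi * Complex.I)⁻¹ * ∮ t in C(0, ρ), (t - p.2)⁻¹ * (G (p.1, t) / a (p.1, t))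
  have hG : ∀ t ∈ closedBall (0 : ℂ) ρ, AnalyticAt ℂ G (0, t) := by
    intro t ht
    exact AnalyticAt.comp (g := χ) (f := fun p : ℂ × ℂ => (p.1, b p)) (x := (0, t)) (hχ _)
      (analyticAt_fst.prod (han0 t ht).2)
  have hh : AnalyticAt ℂ h 0 := by
    refine analyticAt_const.mul ?_
    refine analyticAt_circleIntegral (F := fun z : (ℂ × ℂ) × ℂ => (z.2 - z.1.2)⁻¹ * (G (z.1.1, z.2) / a (z.1.1, z.2))) hρ ?_
    intro t ht
    have hpr : AnalyticAt ℂ (fun z : (ℂ × ℂ) × ℂ => ((z.1.1, z.2) : ℂ × ℂ)) ((0 : ℂ × ℂ), t) :=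
      ((analyticAt_fst.comp analyticAt_fst).prod analyticAt_snd)
    have hpT : AnalyticAt ℂ (fun z : (ℂ × ℂ) × ℂ => z.1.2) ((0 : ℂ × ℂ), t) := analyticAt_snd.comp analyticAt_fst
    refine AnalyticAt.mul (AnalyticAt.inv (analyticAt_snd.sub hpT) ?_) (AnalyticAt.div ?_ ?_ ?_)
    · show t - (0 : ℂ × ℂ).2 ≠ 0
      rw [Prod.snd_zero, sub_zero]
      rintro rfl
      rw [mem_sphere_zero_iff_norm, norm_zero] at ht
      exact hρ.ne ht
    · exact AnalyticAt.comp (g := G) (f := fun z : (ℂ × ℂ) × ℂ => ((z.1.1, z.2) : ℂ × ℂ)) (x := ((0 : ℂ × ℂ), t))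
        (hG t (sphere_subset_closedBall ht)) hpr
    · exact AnalyticAt.comp (g := a) (f := fun z : (ℂ × ℂ) × ℂ => ((z.1.1, z.2) : ℂ × ℂ)) (x := ((0 : ℂ × ℂ), t))
        (han0 t (sphere_subset_closedBall ht)).1 hpr
    · exact hn0 t ht
  have hfst : Tendsto (fun p : ℂ × ℂ => p.1) (𝓝 0) (𝓝 0) := by
    simpa using (continuous_fst (X := ℂ) (Y := ℂ)).tendsto (0 : ℂ × ℂ)
  have hsnd : Tendsto (fun p : ℂ × ℂ => p.2) (𝓝 0) (𝓝 0) := by
    simpa using (continuous_snd (X := ℂ) (Y := ℂ)).tendsto (0 : ℂ × ℂ)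
  have hdiv : ∀ᶠ p : ℂ × ℂ in 𝓝 0, G p = a p * h p := by
    filter_upwards [hfst.eventually hev, hsnd.eventually (Metric.ball_mem_nhds (0 : ℂ) hρ)] with p hp hp2
    obtain ⟨han, hn, r, w, hr, hw, hφ, hχx⟩ := hp
    have hp2' : p.2 ∈ ball (0 : ℂ) ρ := hp2
    have hbx : ∀ t ∈ closedBall (0 : ℂ) ρ, AnalyticAt ℂ (fun t => b (p.1, t)) t := fun t ht =>
      AnalyticAt.comp (g := b) (f := fun t : ℂ => ((p.1, t) : ℂ × ℂ)) (x := t) (han t ht).2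
        (analyticAt_const.prod analyticAt_id)
    -- the quotient
    let q : ℂ → ℂ := fun t => (∏ i, dslope (fun t => b (p.1, t)) (r i) t) / w t
    have hq : ∀ t ∈ closedBall (0 : ℂ) ρ, G (p.1, t) = a (p.1, t) * q t := by
      intro t ht
      have h1 : G (p.1, t) = ∏ i, (b (p.1, t) - b (p.1, r i)) := hχx _
      have h2 : a (p.1, t) = (∏ i, (t - r i)) * w t := (hφ t ht).eq_of_nhds
      have h3 : ∀ i, b (p.1, t) - b (p.1, r i) = (t - r i) * dslope (fun t => b (p.1, t)) (r i) t := fun i => by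
        have := sub_smul_dslope (fun t => b (p.1, t)) (r i) t
        rw [smul_eq_mul] at this
        rw [this]
      rw [h1, h2, Finset.prod_congr rfl fun i _ => h3 i, Finset.prod_mul_distrib]
      show _ = (∏ i, (t - r i)) * w t * ((∏ i, dslope (fun t => b (p.1, t)) (r i) t) / w t)
      rw [mul_assoc, mul_div_cancel₀ _ (hw t ht).2]
    have hqd : DifferentiableOn ℂ q (closedBall (0 : ℂ) ρ) := by
      intro t ht
      refine DifferentiableWithinAt.div ?_ ((hw t ht).1.differentiableAt.differentiableWithinAt) (hw t ht).2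
      refine DifferentiableWithinAt.fun_finsetProd fun i _ => ?_
      have h4 : DifferentiableOn ℂ (fun t => b (p.1, t)) (ball (0 : ℂ) ρ) := fun s hs =>
        (hbx s (ball_subset_closedBall hs)).differentiableAt.differentiableWithinAt
      by_cases hti : t = r i
      · have h5 : DifferentiableOn ℂ (dslope (fun t => b (p.1, t)) (r i)) (ball (0 : ℂ) ρ) :=
          (Complex.differentiableOn_dslope (Metric.isOpen_ball.mem_nhds (by rw [mem_ball_zero_iff]; exact hr i))).2 h4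
        have h6 : ball (0 : ℂ) ρ ∈ 𝓝 t := Metric.isOpen_ball.mem_nhds (by rw [hti, mem_ball_zero_iff]; exact hr i)
        exact (h5.differentiableAt h6).differentiableWithinAt
      · exact ((differentiableAt_dslope_of_ne hti).2 (hbx t ht).differentiableAt).differentiableWithinAt
    have hC : (∮ t in C(0, ρ), (t - p.2)⁻¹ • q t) = (2 * Real.pi * Complex.I : ℂ) • q p.2 :=
      hqd.diffContOnCl_ball subset_rfl |>.circleIntegral_sub_inv_smul hp2'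
    have hC2 : (∮ t in C(0, ρ), (t - p.2)⁻¹ * (G (p.1, t) / a (p.1, t))) = ∮ t in C(0, ρ), (t - p.2)⁻¹ • q t := by
      refine circleIntegral.integral_congr hρ.le fun t ht => ?_
      show (t - p.2)⁻¹ * (G (p.1, t) / a (p.1, t)) = (t - p.2)⁻¹ • q t
      rw [hq t (sphere_subset_closedBall ht), mul_div_cancel_left₀ _ (hn t ht), smul_eq_mul]
    have hhp : h p = q p.2 := by
      show (2 * Real.pi * Complex.I)⁻¹ * (∮ t in C(0, ρ), (t - p.2)⁻¹ * (G (p.1, t) / a (p.1, t))) = q p.2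
      rw [hC2, hC, smul_eq_mul, ← mul_assoc, inv_mul_cancel₀ Complex.two_pi_I_ne_zero, one_mul]
    rw [hhp]
    exact hq p.2 (ball_subset_closedBall hp2')
  -- `χ (x, T) - χ (x, 0)`
  have hχ0 : AnalyticAt ℂ (fun x : ℂ => χ (x, 0)) 0 :=
    AnalyticAt.comp (g := χ) (f := fun x : ℂ => ((x, 0) : ℂ × ℂ)) (x := 0) (hχ 0) (analyticAt_id.prod analyticAt_const)
  have hχ0' : AnalyticAt ℂ (fun p : ℂ × ℂ => χ (p.1, 0)) 0 :=
    AnalyticAt.comp (g := χ) (f := fun p : ℂ × ℂ => ((p.1, 0) : ℂ × ℂ)) (x := 0) (hχ 0) (analyticAt_fst.prod analyticAt_const)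
  obtain ⟨κ, hκ, hκe⟩ := exists_div_snd (F := fun p => χ p - χ (p.1, 0)) ((hχ 0).sub hχ0')
    (Filter.Eventually.of_forall fun x => sub_self _)
  have hbp : Tendsto (fun p : ℂ × ℂ => ((p.1, b p) : ℂ × ℂ)) (𝓝 0) (𝓝 0) := by
    have h1 := (analyticAt_fst.prod hb : AnalyticAt ℂ (fun p : ℂ × ℂ => (p.1, b p)) 0).continuousAt.tendsto
    rw [hb0] at h1
    exact h1
  -- `χ (x, 0) ≠ 0`
  have hχne : ∀ᶠ x in 𝓝[≠] (0 : ℂ), χ (x, 0) ≠ 0 := by
    rw [eventually_nhdsWithin_iff]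
    filter_upwards [hev, Metric.ball_mem_nhds (0 : ℂ) hε] with x hx hxε hx0
    obtain ⟨han, hn, r, w, hr, hw, hφ, hχx⟩ := hx
    rw [hχx 0]
    refine Finset.prod_ne_zero_iff.2 fun i _ => ?_
    rw [zero_sub, neg_ne_zero]
    have h1 : a (x, r i) = 0 := by
      have h2 := (hφ (r i) (by rw [mem_closedBall_zero_iff]; exact (hr i).le)).eq_of_nhds
      have h2' : a (x, r i) = (∏ j, (r i - r j)) * w (r i) := h2
      rw [h2', Finset.prod_eq_zero (Finset.mem_univ i) (sub_self _), zero_mul]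
    have h3 := hεb (x, r i) (by
      rw [mem_ball_zero_iff, Prod.norm_def]
      rw [mem_ball_zero_iff] at hxε
      exact max_lt hxε ((hr i).trans hρε')) (by
      intro h
      exact hx0 (congrArg Prod.fst h))
    rcases h3 with h3 | h3
    · exact absurd h1 h3
    · exact h3
  have hnot : ¬ ∀ᶠ x in 𝓝 (0 : ℂ), χ (x, 0) = 0 := by
    intro h
    have h1 : ∀ᶠ x in 𝓝[≠] (0 : ℂ), χ (x, 0) = 0 := h.filter_mono nhdsWithin_le_nhds
    obtain ⟨x, hx1, hx2⟩ := (h1.and hχne).exists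
    exact hx2 hx1
  obtain ⟨M, u, hu, hu0, hMu⟩ := (hχ0.exists_eventuallyEq_pow_smul_nonzero_iff).2 hnot
  have hu' : AnalyticAt ℂ (fun p : ℂ × ℂ => (u p.1)⁻¹) 0 :=
    AnalyticAt.inv (AnalyticAt.comp (g := u) (f := fun p : ℂ × ℂ => p.1) (x := 0) hu analyticAt_fst) hu0
  refine ⟨M, fun p => (u p.1)⁻¹ * h p, fun p => -((u p.1)⁻¹ * κ (p.1, b p)), hu'.mul hh, ?_, ?_⟩
  · refine (hu'.mul ?_).neg
    refine AnalyticAt.comp (g := κ) (f := fun p : ℂ × ℂ => ((p.1, b p) : ℂ × ℂ)) (x := 0) ?_ (analyticAt_fst.prod hb)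
    have h1 : ((0 : ℂ × ℂ).1, b 0) = (0 : ℂ × ℂ) := by rw [hb0]; rfl
    rw [h1]
    exact hκ
  · filter_upwards [hdiv, hbp.eventually hκe, hfst.eventually hMu, hfst.eventually (hu.continuousAt.eventually_ne hu0)]
      with p h1 h2 h3 h4
    have h2' : χ (p.1, b p) - χ (p.1, 0) = b p * κ (p.1, b p) := h2
    have h1' : χ (p.1, b p) = a p * h p := h1
    have h3' : χ (p.1, 0) = p.1 ^ M * u p.1 := by
      have : χ (p.1, 0) = (p.1 - 0) ^ M • u p.1 := h3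
      rw [this, sub_zero, smul_eq_mul]
    have h5 : p.1 ^ M = (u p.1)⁻¹ * χ (p.1, 0) := by
      rw [h3']
      field_simp
    have h6 : χ (p.1, 0) = a p * h p - b p * κ (p.1, b p) := by
      rw [← h1', ← h2']
      ring
    rw [h5, h6]
    ring

end Pool.Agent.SB.Bez
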