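import Pool.Agent.SB.An.Defs

/-!
# SB/An Ex: every analytic germ has a Taylor series
-/

set_option autoImplicit false

open Topology MvPowerSeries

noncomputable section

namespace Pool.Agent.SB

namespace AnEx

/-- the coefficient of `x ^ i y ^ (n - i)` in `p n` -/
def A (p : FormalMultilinearSeries ℂ (ℂ × ℂ) ℂ) (n i : ℕ) : ℂ :=
  ∑ s ∈ (Finset.univ : Finset (Finset (Fin n))).filter (fun s => s.card = i),
    p n (s.piecewise (fun _ => ((1 : ℂ), (0 : ℂ))) fun _ => ((0 : ℂ), (1 : ℂ)))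

theorem p_apply (p : FormalMultilinearSeries ℂ (ℂ × ℂ) ℂ) (n : ℕ) (z : ℂ × ℂ) :
    p n (fun _ => z) = ∑ i ∈ Finset.range (n + 1), A p n i * (z.1 ^ i * z.2 ^ (n - i)) := by
  classical
  have h1 : (fun _ : Fin n => z) = (fun _ : Fin n => z.1 • ((1 : ℂ), (0 : ℂ))) + fun _ : Fin n => z.2 • ((0 : ℂ), (1 : ℂ)) := by
    funext i
    simp
  have h2 : ∀ s : Finset (Fin n), p n (s.piecewise (fun _ => z.1 • ((1 : ℂ), (0 : ℂ))) fun _ => z.2 • ((0 : ℂ), (1 : ℂ)))
      = p n (s.piecewise (fun _ => ((1 : ℂ), (0 : ℂ))) fun _ => ((0 : ℂ), (1 : ℂ))) * (z.1 ^ s.card * z.2 ^ (n - s.card)) := by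
    intro s
    have e1 : (s.piecewise (fun _ : Fin n => z.1 • ((1 : ℂ), (0 : ℂ))) fun _ => z.2 • ((0 : ℂ), (1 : ℂ)))
        = fun i => (if i ∈ s then z.1 else z.2) • (s.piecewise (fun _ : Fin n => ((1 : ℂ), (0 : ℂ))) (fun _ => ((0 : ℂ), (1 : ℂ))) i) := by
      funext i
      by_cases hi : i ∈ s <;> simp [Finset.piecewise, hi]
    rw [e1]
    have e2 := (p n).toMultilinearMap.map_smul_univ (fun i => if i ∈ s then z.1 else z.2)
      (s.piecewise (fun _ : Fin n => ((1 : ℂ), (0 : ℂ))) fun _ => ((0 : ℂ), (1 : ℂ)))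
    have e3 : ∏ i : Fin n, (if i ∈ s then z.1 else z.2) = z.1 ^ s.card * z.2 ^ (n - s.card) := by
      rw [Finset.prod_ite]
      simp only [Finset.prod_const]
      congr 2
      · congr 1
        ext i; simp
      · have : (Finset.univ.filter fun i : Fin n => i ∉ s) = sᶜ := by ext i; simp
        rw [this, Finset.card_compl, Fintype.card_fin]
    rw [e3] at e2
    calc _ = _ := e2
      _ = _ := by rw [smul_eq_mul, mul_comm]; rfl
  have h3 := (p n).toMultilinearMap.map_add_univ (fun _ : Fin n => z.1 • ((1 : ℂ), (0 : ℂ))) fun _ : Fin n => z.2 • ((0 : ℂ), (1 : ℂ))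
  have h4 : p n (fun _ => z) = ∑ s : Finset (Fin n), p n (s.piecewise (fun _ => z.1 • ((1 : ℂ), (0 : ℂ))) fun _ => z.2 • ((0 : ℂ), (1 : ℂ))) := by
    rw [h1]
    exact h3
  rw [h4, Finset.sum_congr rfl fun s _ => h2 s]
  have h5 : ∀ s ∈ (Finset.univ : Finset (Finset (Fin n))), s.card ∈ Finset.range (n + 1) := fun s _ => by
    rw [Finset.mem_range]
    have := s.card_le_univ
    rw [Fintype.card_fin] at this
    omega
  rw [← Finset.sum_fiberwise_of_maps_to h5]
  refine Finset.sum_congr rfl fun i _ => ?_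
  rw [A, Finset.sum_mul]
  refine Finset.sum_congr rfl fun s hs => ?_
  rw [(Finset.mem_filter.1 hs).2]

theorem ex_inj {i j i' j' : ℕ} (h : ex i j = ex i' j') : i = i' ∧ j = j' := by
  have h0 := DFunLike.congr_fun h 0
  have h1 := DFunLike.congr_fun h 1
  simp [ex] at h0 h1
  exact ⟨h0, h1⟩

/-- the Taylor polynomial -/
def TP (p : FormalMultilinearSeries ℂ (ℂ × ℂ) ℂ) (N : ℕ) : MvPolynomial (Fin 2) ℂ :=
  ∑ n ∈ Finset.range N, ∑ i ∈ Finset.range (n + 1), MvPolynomial.monomial (ex i (n - i)) (A p n i)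

theorem coeff_TP (p : FormalMultilinearSeries ℂ (ℂ × ℂ) ℂ) {N i j : ℕ} (h : i + j < N) :
    MvPolynomial.coeff (ex i j) (TP p N) = A p (i + j) i := by
  classical
  unfold TP
  rw [MvPolynomial.coeff_sum]
  simp only [MvPolynomial.coeff_sum, MvPolynomial.coeff_monomial]
  rw [Finset.sum_eq_single (i + j)]
  · rw [Finset.sum_eq_single i]
    · rw [if_pos (by rw [Nat.add_sub_cancel_left])]
    · intro k _ hk
      rw [if_neg]
      intro he
      exact hk (ex_inj he).1
    · intro hi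
      exact absurd (Finset.mem_range.2 (by omega)) hi
  · intro n _ hn
    refine Finset.sum_eq_zero fun k hk => ?_
    rw [if_neg]
    intro he
    obtain ⟨h1, h2⟩ := ex_inj he
    rw [Finset.mem_range] at hk
    omega
  · intro hn
    exact absurd (Finset.mem_range.2 h) hn

theorem eval_TP (p : FormalMultilinearSeries ℂ (ℂ × ℂ) ℂ) (N : ℕ) (z : ℂ × ℂ) :
    MvPolynomial.eval ![z.1, z.2] (TP p N) = p.partialSum N z := by
  unfold TP FormalMultilinearSeries.partialSum
  rw [map_sum]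
  refine Finset.sum_congr rfl fun n _ => ?_
  rw [map_sum, p_apply]
  refine Finset.sum_congr rfl fun i _ => ?_
  rw [MvPolynomial.eval_monomial]
  congr 1
  rw [Finsupp.prod_fintype _ _ fun _ => pow_zero _, Fin.prod_univ_two]
  simp [ex]

/-- the Taylor series -/
def TS (p : FormalMultilinearSeries ℂ (ℂ × ℂ) ℂ) : R2 := fun d => A p (d 0 + d 1) (d 0)

theorem coeff_TS (p : FormalMultilinearSeries ℂ (ℂ × ℂ) ℂ) (i j : ℕ) : coeff (ex i j) (TS p) = A p (i + j) i := by
  have h2 : coeff (ex i j) (TS p) = A p ((ex i j) 0 + (ex i j) 1) ((ex i j) 0) := rfl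
  have e0 : (ex i j) 0 = i := by simp [ex]
  have e1 : (ex i j) 1 = j := by simp [ex]
  rw [h2, e0, e1]

end AnEx

open AnEx

theorem exists_jet {f : ℂ × ℂ → ℂ} (hf : AnalyticAt ℂ f 0) : ∃ s : R2, Jet f s := by
  obtain ⟨p, hp⟩ := hf
  refine ⟨TS p, fun N => ⟨TP p N, ?_, ?_⟩⟩
  · intro i j hij
    rw [cf, map_sub, MvPolynomial.coeff_coe, coeff_TP p hij, coeff_TS, sub_self]
  · have h1 := hp.isBigO_sub_partialSum_pow N
    simp only [zero_add] at h1
    simpa only [eval_TP] using h1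

end Pool.Agent.SB
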