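import Pool.Agent.SB.An.Defs

/-!
# SB/An Un: the Taylor series is unique
-/

set_option autoImplicit false

open Topology MvPowerSeries Asymptotics

noncomputable section

namespace Pool.Agent.SB

namespace AnUn

/-- a polynomial in one variable which is `O(τ ^ N)` has no terms of degree less than `N` -/
theorem coeff_zero_of_isBigO {N : ℕ} : ∀ {q : Polynomial ℂ}, ((fun τ : ℂ => q.eval τ) =O[𝓝[≠] 0] fun τ => τ ^ N) → ∀ m < N, q.coeff m = 0 := by
  induction N with
  | zero => intro q _ m hm; omega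
  | succ N ih =>
    intro q h m hm
    have h0 : q.coeff 0 = 0 := by
      have t1 : Filter.Tendsto (fun τ : ℂ => τ ^ (N + 1)) (𝓝[≠] 0) (𝓝 0) := by
        have : Continuous fun τ : ℂ => τ ^ (N + 1) := by fun_prop
        have h2 := this.tendsto 0
        rw [zero_pow (Nat.succ_ne_zero N)] at h2
        exact h2.mono_left nhdsWithin_le_nhds
      have t2 := h.trans_tendsto t1
      have t3 : Filter.Tendsto (fun τ : ℂ => q.eval τ) (𝓝[≠] 0) (𝓝 (q.eval 0)) := (q.continuous.tendsto 0).mono_left nhdsWithin_le_nhds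
      rw [Polynomial.coeff_zero_eq_eval_zero]
      exact tendsto_nhds_unique t3 t2
    have hdiv : (fun τ : ℂ => q.divX.eval τ) =O[𝓝[≠] 0] fun τ => τ ^ N := by
      have e : q = q.divX * Polynomial.X := by
        have := Polynomial.divX_mul_X_add q
        rw [h0, map_zero, add_zero] at this
        exact this.symm
      have h2 := h.bound
      obtain ⟨c, hc⟩ := h2
      refine IsBigO.of_bound c ?_
      filter_upwards [hc, self_mem_nhdsWithin] with τ h3 hτ
      have hτ0 : τ ≠ 0 := hτ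
      have hn : 0 < ‖τ‖ := norm_pos_iff.2 hτ0
      rw [e, Polynomial.eval_mul, Polynomial.eval_X, norm_mul, pow_succ, norm_mul, ← mul_assoc] at h3
      exact le_of_mul_le_mul_right h3 hn
    rcases m with _ | m
    · exact h0
    · have := ih hdiv m (by omega)
      rwa [Polynomial.coeff_divX] at this

/-- restriction to a line -/
def ln (z : ℂ × ℂ) : MvPolynomial (Fin 2) ℂ →ₐ[ℂ] Polynomial ℂ :=
  MvPolynomial.aeval ![Polynomial.C z.1 * Polynomial.X, Polynomial.C z.2 * Polynomial.X]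

theorem eval_ln (z : ℂ × ℂ) (Q : MvPolynomial (Fin 2) ℂ) (τ : ℂ) :
    (ln z Q).eval τ = MvPolynomial.eval ![z.1 * τ, z.2 * τ] Q := by
  have h : (Polynomial.evalRingHom τ).comp (ln z).toRingHom = MvPolynomial.eval ![z.1 * τ, z.2 * τ] := by
    apply MvPolynomial.ringHom_ext
    · intro r
      simp [ln]
    · intro i
      fin_cases i <;> simp [ln]
  have := RingHom.congr_fun h Q
  simpa using this

theorem ln_hom (z : ℂ × ℂ) {Q : MvPolynomial (Fin 2) ℂ} {m : ℕ} (hQ : Q.IsHomogeneous m) :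
    ln z Q = Polynomial.C (MvPolynomial.eval ![z.1, z.2] Q) * Polynomial.X ^ m := by
  rw [ln, MvPolynomial.aeval_def, MvPolynomial.eval₂_eq', MvPolynomial.eval_eq', map_sum, Finset.sum_mul]
  refine Finset.sum_congr rfl fun d hd => ?_
  have h1 : d 0 + d 1 = m := by
    have := hQ (MvPolynomial.mem_support_iff.1 hd)
    rw [Finsupp.weight_apply, Finsupp.sum_fintype _ _ (by simp), Fin.sum_univ_two] at this
    simpa using this
  rw [Fin.prod_univ_two, Fin.prod_univ_two]
  simp only [Matrix.cons_val_zero, Matrix.cons_val_one, Polynomial.algebraMap_eq, map_mul, map_pow]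
  rw [← h1, pow_add]
  ring

theorem coeff_ln (z : ℂ × ℂ) (Q : MvPolynomial (Fin 2) ℂ) (m : ℕ) :
    (ln z Q).coeff m = MvPolynomial.eval ![z.1, z.2] (MvPolynomial.homogeneousComponent m Q) := by
  conv_lhs => rw [← MvPolynomial.sum_homogeneousComponent Q]
  rw [map_sum, Polynomial.finsetSum_coeff]
  simp_rw [fun i => ln_hom z (MvPolynomial.homogeneousComponent_isHomogeneous i Q), Polynomial.coeff_C_mul, Polynomial.coeff_X_pow]
  by_cases hm : m < Q.totalDegree + 1
  · rw [Finset.sum_eq_single m]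
    · simp
    · intro k _ hk
      rw [if_neg (Ne.symm hk), mul_zero]
    · intro h
      exact absurd (Finset.mem_range.2 hm) h
  · rw [MvPolynomial.homogeneousComponent_eq_zero _ _ (by omega), map_zero]
    refine Finset.sum_eq_zero fun k hk => ?_
    rw [Finset.mem_range] at hk
    rw [if_neg (by omega), mul_zero]

theorem eq_ex (d : Fin 2 →₀ ℕ) : d = ex (d 0) (d 1) := by
  ext i
  fin_cases i <;> simp [ex]

end AnUn

open AnUn

theorem ord_of_isBigO {Q : MvPolynomial (Fin 2) ℂ} {N : ℕ}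
    (h : (fun p : ℂ × ℂ => MvPolynomial.eval ![p.1, p.2] Q) =O[𝓝 0] fun p => ‖p‖ ^ N) : Ord N (Q : R2) := by
  have h1 : ∀ m < N, MvPolynomial.homogeneousComponent m Q = 0 := by
    intro m hm
    refine MvPolynomial.funext fun x => ?_
    rw [map_zero]
    have hx : x = ![x 0, x 1] := by
      funext i; fin_cases i <;> rfl
    have hz := coeff_ln (x 0, x 1) Q m
    simp only at hz
    rw [← hx] at hz
    rw [← hz]
    refine coeff_zero_of_isBigO (N := N) ?_ m hm
    have h2 : Filter.Tendsto (fun τ : ℂ => (x 0 * τ, x 1 * τ)) (𝓝 0) (𝓝 (0 : ℂ × ℂ)) := by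
      have : Continuous fun τ : ℂ => (x 0 * τ, x 1 * τ) := by fun_prop
      exact this.tendsto' 0 0 (by simp)
    have h3 := (h.comp_tendsto h2)
    have h4 : (fun τ : ℂ => ‖(x 0 * τ, x 1 * τ)‖ ^ N) =O[𝓝 0] fun τ : ℂ => τ ^ N := by
      refine IsBigO.of_bound (‖(x 0, x 1)‖ ^ N) (Filter.Eventually.of_forall fun τ => ?_)
      have h5 : (x 0 * τ, x 1 * τ) = τ • (x 0, x 1) := by simp [mul_comm]
      rw [h5, norm_smul, norm_pow, norm_mul, norm_norm, norm_norm, mul_pow, norm_pow, mul_comm]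
    have h6 : (fun τ : ℂ => (ln (x 0, x 1) Q).eval τ) = (fun p : ℂ × ℂ => MvPolynomial.eval ![p.1, p.2] Q) ∘ fun τ : ℂ => (x 0 * τ, x 1 * τ) := by
      funext τ
      rw [eval_ln]
      rfl
    rw [h6]
    exact ((h3.trans h4).mono nhdsWithin_le_nhds)
  intro i j hij
  have h2 := congrArg (MvPolynomial.coeff (ex i j)) (h1 (i + j) hij)
  rw [MvPolynomial.coeff_homogeneousComponent, MvPolynomial.coeff_zero] at h2
  have hdeg : (ex i j).degree = i + j := by
    rw [Finsupp.degree_eq_sum, Fin.sum_univ_two]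
    simp [ex]
  rw [if_pos hdeg] at h2
  rw [cf, MvPolynomial.coeff_coe, h2]

theorem Jet.unique {f : ℂ × ℂ → ℂ} {s s' : R2} (h : Jet f s) (h' : Jet f s') : s = s' := by
  refine MvPowerSeries.ext fun d => ?_
  obtain ⟨P, hP, hO⟩ := h (d 0 + d 1 + 1)
  obtain ⟨P', hP', hO'⟩ := h' (d 0 + d 1 + 1)
  have h1 : (fun p : ℂ × ℂ => MvPolynomial.eval ![p.1, p.2] (P - P')) =O[𝓝 0] fun p => ‖p‖ ^ (d 0 + d 1 + 1) := by
    refine (hO'.sub hO).congr_left fun p => ?_
    rw [map_sub]
    ring
  have h2 := ord_of_isBigO h1 (d 0) (d 1) (by omega)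
  have h3 := hP (d 0) (d 1) (by omega)
  have h4 := hP' (d 0) (d 1) (by omega)
  rw [cf, ← eq_ex] at h2 h3 h4
  rw [map_sub] at h3 h4
  rw [MvPolynomial.coeff_coe, MvPolynomial.coeff_sub] at h2
  rw [MvPolynomial.coeff_coe] at h3 h4
  have e3 := sub_eq_zero.1 h3
  have e4 := sub_eq_zero.1 h4
  have e2 := sub_eq_zero.1 h2
  rw [e3, e4, e2]

end Pool.Agent.SB
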