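import Pool.Agent.SB.Api
import Pool.Agent.SB.An.Ex
import Pool.Agent.SB.An.Un
import Pool.Agent.H22.HF.Div

/-!
# SB/An Ops: Taylor series of sums, products, blow-ups; exact division
-/

set_option autoImplicit false

open Topology MvPowerSeries Asymptotics Filter

noncomputable section

namespace Pool.Agent.SB

/-! ### the ideals `Ord N` -/

theorem Ord.add {N : ℕ} {a b : R2} (ha : Ord N a) (hb : Ord N b) : Ord N (a + b) := fun i j h => by
  rw [cf_add, ha i j h, hb i j h, add_zero]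

theorem Ord.sub {N : ℕ} {a b : R2} (ha : Ord N a) (hb : Ord N b) : Ord N (a - b) := fun i j h => by
  rw [cf_sub, ha i j h, hb i j h, sub_zero]

theorem Ord.mul_right {N : ℕ} {a : R2} (ha : Ord N a) (b : R2) : Ord N (a * b) := fun i j h => by
  rw [cf_mul]
  refine Finset.sum_eq_zero fun p hp => Finset.sum_eq_zero fun q hq => ?_
  rw [Finset.HasAntidiagonal.mem_antidiagonal] at hp hq
  rw [ha p.1 q.1 (by omega), zero_mul]

theorem Ord.mul_left {N : ℕ} {a : R2} (ha : Ord N a) (b : R2) : Ord N (b * a) := by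
  rw [mul_comm]
  exact ha.mul_right b

theorem ord_zero (N : ℕ) : Ord N (0 : R2) := fun i j _ => by
  rw [cf, map_zero]

/-! ### polynomials near `0` -/

theorem eval_fin2 (P : MvPolynomial (Fin 2) ℂ) (x y : ℂ) :
    MvPolynomial.eval ![x, y] P = ∑ d ∈ P.support, MvPolynomial.coeff d P * (x ^ d 0 * y ^ d 1) := by
  rw [MvPolynomial.eval_eq']
  refine Finset.sum_congr rfl fun d _ => ?_
  rw [Fin.prod_univ_two]
  rfl

theorem cf_coe (P : MvPolynomial (Fin 2) ℂ) (i j : ℕ) : cf (P : R2) i j = MvPolynomial.coeff (ex i j) P :=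
  MvPolynomial.coeff_coe _ _

theorem poly_isBigO_one (P : MvPolynomial (Fin 2) ℂ) :
    (fun p : ℂ × ℂ => MvPolynomial.eval ![p.1, p.2] P) =O[𝓝 0] fun _ : ℂ × ℂ => (1 : ℝ) := by
  have h1 : Continuous fun p : ℂ × ℂ => MvPolynomial.eval ![p.1, p.2] P := by
    simp only [eval_fin2]
    fun_prop
  exact h1.continuousAt.isBigO_one ℝ

theorem isBigO_of_ord {Q : MvPolynomial (Fin 2) ℂ} {N : ℕ} (h : Ord N (Q : R2)) :
    (fun p : ℂ × ℂ => MvPolynomial.eval ![p.1, p.2] Q) =O[𝓝 0] fun p => ‖p‖ ^ N := by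
  simp only [eval_fin2]
  refine IsBigO.fun_sum fun d hd => ?_
  have h1 : N ≤ d 0 + d 1 := by
    by_contra hlt
    push Not at hlt
    have h2 := h (d 0) (d 1) hlt
    rw [cf_coe, ex_eq] at h2
    exact (MvPolynomial.mem_support_iff.1 hd) h2
  refine IsBigO.const_mul_left ?_ _
  refine IsBigO.of_bound 1 ?_
  filter_upwards [Metric.ball_mem_nhds (0 : ℂ × ℂ) one_pos] with p hp
  rw [mem_ball_zero_iff] at hp
  rw [norm_mul, norm_pow, norm_pow, one_mul, norm_pow, norm_norm]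
  calc ‖p.1‖ ^ d 0 * ‖p.2‖ ^ d 1 ≤ ‖p‖ ^ d 0 * ‖p‖ ^ d 1 := by
        gcongr
        · exact norm_fst_le p
        · exact norm_snd_le p
    _ = ‖p‖ ^ (d 0 + d 1) := (pow_add _ _ _).symm
    _ ≤ ‖p‖ ^ N := pow_le_pow_of_le_one (norm_nonneg _) hp.le h1

/-! ### operations -/

theorem Jet.isBigO_one {f : ℂ × ℂ → ℂ} {s : R2} (h : Jet f s) : f =O[𝓝 0] fun _ : ℂ × ℂ => (1 : ℝ) := by
  obtain ⟨P, -, hP⟩ := h 0
  have h1 : (fun p : ℂ × ℂ => f p - MvPolynomial.eval ![p.1, p.2] P) =O[𝓝 0] fun _ : ℂ × ℂ => (1 : ℝ) := by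
    simpa using hP
  have h2 := h1.add (poly_isBigO_one P)
  refine h2.congr_left fun p => ?_
  ring

theorem Jet.congr {f g : ℂ × ℂ → ℂ} {s : R2} (h : Jet f s) (hfg : ∀ᶠ p in 𝓝 0, f p = g p) : Jet g s := by
  intro N
  obtain ⟨P, h1, h2⟩ := h N
  refine ⟨P, h1, h2.congr' ?_ EventuallyEq.rfl⟩
  filter_upwards [hfg] with p hp
  rw [hp]

theorem Jet.add {f g : ℂ × ℂ → ℂ} {s s' : R2} (h : Jet f s) (h' : Jet g s') : Jet (fun p => f p + g p) (s + s') := by
  intro N
  obtain ⟨P, h1, h2⟩ := h N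
  obtain ⟨P', h1', h2'⟩ := h' N
  refine ⟨P + P', ?_, ?_⟩
  · rw [MvPolynomial.coe_add, add_sub_add_comm]
    exact h1.add h1'
  · refine (h2.add h2').congr_left fun p => ?_
    rw [map_add]
    ring

theorem Jet.mul {f g : ℂ × ℂ → ℂ} {s s' : R2} (h : Jet f s) (h' : Jet g s') : Jet (fun p => f p * g p) (s * s') := by
  intro N
  obtain ⟨P, h1, h2⟩ := h N
  obtain ⟨P', h1', h2'⟩ := h' N
  refine ⟨P * P', ?_, ?_⟩
  · rw [MvPolynomial.coe_mul]
    have h3 : s * s' - (P : R2) * (P' : R2) = (s - P) * s' + P * (s' - P') := by ring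
    rw [h3]
    exact (h1.mul_right _).add (h1'.mul_left _)
  · have h4 : (fun p : ℂ × ℂ => MvPolynomial.eval ![p.1, p.2] P * (g p - MvPolynomial.eval ![p.1, p.2] P')) =O[𝓝 0]
        fun p => ‖p‖ ^ N * 1 := ((poly_isBigO_one P).mul h2').congr_right fun p => by ring
    refine (((h2.mul h'.isBigO_one).add h4).congr_right fun p => ?_).congr_left fun p => ?_
    · ring
    · rw [map_mul]
      ring

theorem jet_poly (P : MvPolynomial (Fin 2) ℂ) : Jet (fun p => MvPolynomial.eval ![p.1, p.2] P) (P : R2) := fun N =>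
  ⟨P, by rw [sub_self]; exact ord_zero N, by simpa using isBigO_zero _ _⟩

theorem jet_const (c : ℂ) : Jet (fun _ => c) (C c) := by
  have h := jet_poly (MvPolynomial.C c)
  simpa using h

theorem jet_zero : Jet (fun _ => 0) 0 := by
  have h := jet_const 0
  rwa [map_zero] at h

theorem jet_fst : Jet (fun p => p.1) (X 0) := by
  have h := jet_poly (MvPolynomial.X 0)
  simpa using h

theorem jet_snd : Jet (fun p => p.2) (X 1) := by
  have h := jet_poly (MvPolynomial.X 1)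
  simpa using h

theorem Jet.neg {f : ℂ × ℂ → ℂ} {s : R2} (h : Jet f s) : Jet (fun p => -f p) (-s) := by
  have h1 := (jet_const (-1)).mul h
  rw [map_neg, map_one, neg_one_mul] at h1
  refine h1.congr (Filter.Eventually.of_forall fun p => ?_)
  ring

theorem Jet.sub {f g : ℂ × ℂ → ℂ} {s s' : R2} (h : Jet f s) (h' : Jet g s') : Jet (fun p => f p - g p) (s - s') := by
  have h1 := h.add h'.neg
  rw [← sub_eq_add_neg] at h1
  refine h1.congr (Filter.Eventually.of_forall fun p => ?_)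
  ring

theorem jet_fst_pow (n : ℕ) : Jet (fun p => p.1 ^ n) (X 0 ^ n) := by
  induction n with
  | zero =>
    have h := jet_const 1
    rw [map_one] at h
    simpa using h
  | succ n ih =>
    have h := ih.mul jet_fst
    rw [← pow_succ] at h
    refine h.congr (Filter.Eventually.of_forall fun p => ?_)
    rw [pow_succ]

/-- the point of the blow-up -/
def bt (t : ℂ) (p : ℂ × ℂ) : ℂ × ℂ := (p.1, p.1 * (p.2 + t))

theorem bt_zero (t : ℂ) : bt t 0 = 0 := by
  simp [bt]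

theorem bt_analytic (t : ℂ) (p : ℂ × ℂ) : AnalyticAt ℂ (bt t) p :=
  analyticAt_fst.prod (analyticAt_fst.mul (analyticAt_snd.add analyticAt_const))

theorem bt_tendsto (t : ℂ) : Tendsto (bt t) (𝓝 0) (𝓝 0) := by
  have h := (bt_analytic t 0).continuousAt.tendsto
  rwa [bt_zero] at h

theorem bt_isBigO (t : ℂ) : (fun p : ℂ × ℂ => ‖bt t p‖) =O[𝓝 0] fun p => ‖p‖ := by
  refine IsBigO.of_bound (1 + ‖t‖) ?_
  filter_upwards [Metric.ball_mem_nhds (0 : ℂ × ℂ) one_pos] with p hp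
  rw [mem_ball_zero_iff] at hp
  rw [norm_norm, norm_norm, bt, Prod.norm_def]
  have h1 := norm_fst_le p
  have h2 := norm_snd_le p
  have h3 : 0 ≤ ‖t‖ := norm_nonneg t
  have h4 : 0 ≤ ‖p‖ := norm_nonneg p
  refine max_le ?_ ?_
  · show ‖p.1‖ ≤ _
    nlinarith
  · show ‖p.1 * (p.2 + t)‖ ≤ _
    rw [norm_mul]
    calc ‖p.1‖ * ‖p.2 + t‖ ≤ ‖p‖ * (‖p.2‖ + ‖t‖) := by
          gcongr
          exact norm_add_le _ _
      _ ≤ (1 + ‖t‖) * ‖p‖ := by nlinarith

/-- the substitution on polynomials -/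
def blP (t : ℂ) : MvPolynomial (Fin 2) ℂ →ₐ[ℂ] MvPolynomial (Fin 2) ℂ :=
  MvPolynomial.aeval ![MvPolynomial.X 0, MvPolynomial.X 0 * (MvPolynomial.X 1 + MvPolynomial.C t)]

theorem bl_X (t : ℂ) (i : Fin 2) : bl t (X i) = (![X 0, X 0 * (X 1 + C t)] : Fin 2 → R2) i := by
  rw [bl, coe_substAlgHom, subst_X (hasSubst_bl t)]

theorem bl_coe (t : ℂ) (P : MvPolynomial (Fin 2) ℂ) : bl t (P : R2) = (blP t P : MvPolynomial (Fin 2) ℂ) := by
  induction P using MvPolynomial.induction_on with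
  | C a =>
    rw [MvPolynomial.coe_C, blP, MvPolynomial.aeval_C, MvPolynomial.algebraMap_eq, MvPolynomial.coe_C]
    exact AlgHom.commutes (bl t) a
  | add p q hp hq => rw [MvPolynomial.coe_add, map_add, map_add, MvPolynomial.coe_add, hp, hq]
  | mul_X p i hp =>
    rw [MvPolynomial.coe_mul, map_mul, map_mul, MvPolynomial.coe_mul, hp, MvPolynomial.coe_X, bl_X, blP, MvPolynomial.aeval_X]
    congr 1
    fin_cases i
    · simp
    · simp

theorem eval_blP (t : ℂ) (P : MvPolynomial (Fin 2) ℂ) (p : ℂ × ℂ) :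
    MvPolynomial.eval ![p.1, p.2] (blP t P) = MvPolynomial.eval ![(bt t p).1, (bt t p).2] P := by
  induction P using MvPolynomial.induction_on with
  | C a => rw [blP, MvPolynomial.aeval_C, MvPolynomial.algebraMap_eq, MvPolynomial.eval_C, MvPolynomial.eval_C]
  | add a b ha hb => rw [map_add, map_add, map_add, ha, hb]
  | mul_X a i ha =>
    rw [map_mul, map_mul, map_mul, ha, blP, MvPolynomial.aeval_X, MvPolynomial.eval_X]
    congr 1
    fin_cases i
    · simp [bt]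
    · simp [bt]

theorem Ord.bl {N : ℕ} {s : R2} (h : Ord N s) (t : ℂ) : Ord N (SB.bl t s) := by
  obtain ⟨u, hu⟩ := exists_bl t h
  intro i j hij
  rw [← hu, cf_X0_pow_mul, if_neg (by omega)]

theorem Jet.bl {f : ℂ × ℂ → ℂ} {s : R2} (h : Jet f s) (t : ℂ) : Jet (fun p => f (bt t p)) (SB.bl t s) := by
  intro N
  obtain ⟨P, h1, h2⟩ := h N
  refine ⟨blP t P, ?_, ?_⟩
  · rw [← bl_coe, ← map_sub]
    exact h1.bl t
  · have h3 := (h2.comp_tendsto (bt_tendsto t)).trans ((bt_isBigO t).pow N)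
    refine h3.congr_left fun p => ?_
    rw [Function.comp_apply, eval_blP]

/-- the exchange of the variables on polynomials -/
theorem sw_coe (P : MvPolynomial (Fin 2) ℂ) : sw (P : R2) = (MvPolynomial.rename (Equiv.swap 0 1) P : MvPolynomial (Fin 2) ℂ) := by
  induction P using MvPolynomial.induction_on with
  | C a =>
    rw [MvPolynomial.coe_C, MvPolynomial.rename_C, MvPolynomial.coe_C]
    exact AlgEquiv.commutes sw a
  | add p q hp hq => rw [MvPolynomial.coe_add, map_add, map_add, MvPolynomial.coe_add, hp, hq]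
  | mul_X p i hp =>
    rw [MvPolynomial.coe_mul, map_mul, map_mul, MvPolynomial.coe_mul, hp, MvPolynomial.coe_X, MvPolynomial.rename_X,
      MvPolynomial.coe_X]
    congr 1
    refine cf_ext fun k l => ?_
    rw [cf_sw]
    have h1 : ∀ (i : Fin 2) (k l : ℕ), cf (X i : R2) k l = if k = (if i = 0 then 1 else 0) ∧ l = (if i = 0 then 0 else 1) then 1 else 0 := by
      intro i k l
      rw [cf, coeff_X]
      have h2 : (Finsupp.single i 1 : Fin 2 →₀ ℕ) = ex (if i = 0 then 1 else 0) (if i = 0 then 0 else 1) := by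
        fin_cases i
        · simp [ex]
        · simp [ex]
      rw [h2]
      simp only [ex_inj]
    rw [h1, h1]
    fin_cases i
    · simp [and_comm]
    · simp [and_comm]

theorem Jet.sw {f : ℂ × ℂ → ℂ} {s : R2} (h : Jet f s) : Jet (fun p => f p.swap) (SB.sw s) := by
  intro N
  obtain ⟨P, h1, h2⟩ := h N
  refine ⟨MvPolynomial.rename (Equiv.swap 0 1) P, ?_, ?_⟩
  · rw [← sw_coe, ← map_sub, ord_sw]
    exact h1
  · have hsw : Tendsto (fun p : ℂ × ℂ => p.swap) (𝓝 0) (𝓝 0) := by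
      have := (continuous_swap (X := ℂ) (Y := ℂ)).tendsto 0
      simpa using this
    have h3 := h2.comp_tendsto hsw
    refine (h3.congr_left fun p => ?_).congr_right fun p => ?_
    · rw [Function.comp_apply, MvPolynomial.eval_rename]
      congr 2
      rw [Function.comp_def]
      congr 1
      funext i
      fin_cases i
      · simp
      · simp
    · rw [Function.comp_apply]
      congr 1
      rw [Prod.norm_def, Prod.norm_def, max_comm]
      rfl

/-! ### values and derivatives -/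

theorem Jet.apply_zero {f : ℂ × ℂ → ℂ} {s : R2} (h : Jet f s) : f 0 = cf s 0 0 := by
  obtain ⟨P, h1, h2⟩ := h 1
  obtain ⟨c, hc⟩ := h2.bound
  have h3 := hc.self_of_nhds
  rw [norm_zero, pow_one, norm_zero, mul_zero] at h3
  have h4 : f 0 - MvPolynomial.eval ![(0 : ℂ × ℂ).1, (0 : ℂ × ℂ).2] P = 0 := norm_le_zero_iff.1 h3
  have h5 := h1 0 0 (by norm_num)
  rw [cf_sub, sub_eq_zero] at h5
  rw [sub_eq_zero.1 h4, h5, cf_coe]
  have h6 : (![(0 : ℂ × ℂ).1, (0 : ℂ × ℂ).2] : Fin 2 → ℂ) = 0 := by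
    funext i
    fin_cases i
    · rfl
    · rfl
  have h7 : ex 0 0 = 0 := by simp [ex]
  rw [h6, MvPolynomial.eval_zero, h7, MvPolynomial.constantCoeff_eq]

theorem Jet.hasFDerivAt {f : ℂ × ℂ → ℂ} {s : R2} (h : Jet f s) :
    HasFDerivAt f (cf s 1 0 • ContinuousLinearMap.fst ℂ ℂ ℂ + cf s 0 1 • ContinuousLinearMap.snd ℂ ℂ ℂ) 0 := by
  let L : MvPolynomial (Fin 2) ℂ := MvPolynomial.C (cf s 0 0) + MvPolynomial.C (cf s 1 0) * MvPolynomial.X 0 +
    MvPolynomial.C (cf s 0 1) * MvPolynomial.X 1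
  have hL : Ord 2 (s - (L : R2)) := by
    intro i j hij
    have h1 : (L : R2) = C (cf s 0 0) * 1 + C (cf s 1 0) * (X 0 * 1) + C (cf s 0 1) * (X 1 * 1) := by
      simp only [L, MvPolynomial.coe_add, MvPolynomial.coe_mul, MvPolynomial.coe_C, MvPolynomial.coe_X, mul_one]
    have h2 : ∀ i j, cf (1 : R2) i j = if i = 0 ∧ j = 0 then 1 else 0 := by
      intro i j
      rw [cf, coeff_one]
      have h3 : (0 : Fin 2 →₀ ℕ) = ex 0 0 := by simp [ex]
      rw [h3]
      simp only [ex_inj]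
    rw [h1, cf_sub, cf_add, cf_add, cf_C_mul, cf_C_mul, cf_C_mul, cf_X0_mul, cf_X1_mul, h2, h2, h2]
    have hij' : (i = 0 ∧ j = 0) ∨ (i = 1 ∧ j = 0) ∨ (i = 0 ∧ j = 1) := by omega
    rcases hij' with ⟨rfl, rfl⟩ | ⟨rfl, rfl⟩ | ⟨rfl, rfl⟩ <;> simp
  obtain ⟨P, h1, h2⟩ := h 2
  have h3 : Ord 2 ((P - L : MvPolynomial (Fin 2) ℂ) : R2) := by
    have h4 : ((P - L : MvPolynomial (Fin 2) ℂ) : R2) = (s - (L : R2)) - (s - (P : R2)) := by
      have h5 : ((P - L : MvPolynomial (Fin 2) ℂ) : R2) = (P : R2) - (L : R2) := by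
        refine cf_ext fun i j => ?_
        rw [cf_sub, cf_coe, cf_coe, cf_coe, MvPolynomial.coeff_sub]
      rw [h5]
      ring
    rw [h4]
    exact hL.sub h1
  have h6 : (fun p : ℂ × ℂ => f p - MvPolynomial.eval ![p.1, p.2] L) =O[𝓝 0] fun p => ‖p - 0‖ ^ 2 := by
    refine ((h2.add (isBigO_of_ord h3)).congr_left fun p => ?_).congr_right fun p => ?_
    · rw [map_sub]
      ring
    · rw [sub_zero]
  have h7 := h6.hasFDerivAt (𝕜 := ℂ) one_lt_two
  have h8 : HasFDerivAt (fun p : ℂ × ℂ => MvPolynomial.eval ![p.1, p.2] L)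
      (cf s 1 0 • ContinuousLinearMap.fst ℂ ℂ ℂ + cf s 0 1 • ContinuousLinearMap.snd ℂ ℂ ℂ) 0 := by
    have h9 : (fun p : ℂ × ℂ => MvPolynomial.eval ![p.1, p.2] L) = fun p : ℂ × ℂ =>
        cf s 0 0 + (cf s 1 0 • p.1 + cf s 0 1 • p.2) := by
      funext p
      simp only [L, map_add, map_mul, MvPolynomial.eval_C, MvPolynomial.eval_X, Matrix.cons_val_zero, Matrix.cons_val_one,
        smul_eq_mul]
      ring
    rw [h9]
    exact ((hasFDerivAt_fst.const_smul (cf s 1 0)).add (hasFDerivAt_snd.const_smul (cf s 0 1))).const_add _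
  have h10 := h7.add h8
  rw [zero_add] at h10
  refine h10.congr_of_eventuallyEq (Filter.Eventually.of_forall fun p => ?_)
  simp

theorem Jet.fderiv_fst {f : ℂ × ℂ → ℂ} {s : R2} (h : Jet f s) : fderiv ℂ f 0 (1, 0) = cf s 1 0 := by
  rw [h.hasFDerivAt.fderiv]
  simp

theorem Jet.fderiv_snd {f : ℂ × ℂ → ℂ} {s : R2} (h : Jet f s) : fderiv ℂ f 0 (0, 1) = cf s 0 1 := by
  rw [h.hasFDerivAt.fderiv]
  simp

/-! ### exact division -/

/-- an analytic function of one variable of infinite order -/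
theorem eventually_zero_of_isBigO {g : ℂ → ℂ} (hg : AnalyticAt ℂ g 0) (h : ∀ N : ℕ, g =O[𝓝 0] fun y => ‖y‖ ^ N) :
    ∀ᶠ y in 𝓝 (0 : ℂ), g y = 0 := by
  by_contra hne
  obtain ⟨n, u, hu, hu0, hn⟩ := (hg.exists_eventuallyEq_pow_smul_nonzero_iff).2 hne
  obtain ⟨c, hc⟩ := (h (n + 1)).bound
  have h1 : ∀ᶠ y in 𝓝[≠] (0 : ℂ), ‖u y‖ ≤ c * ‖y‖ := by
    rw [eventually_nhdsWithin_iff]
    filter_upwards [hn, hc] with y h2 h3 hy
    have hy0 : 0 < ‖y‖ := norm_pos_iff.2 hy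
    rw [h2, sub_zero, smul_eq_mul, norm_mul, norm_pow, norm_pow, norm_norm, pow_succ] at h3
    have h4 : 0 < ‖y‖ ^ n := pow_pos hy0 n
    refine le_of_mul_le_mul_left ?_ h4
    calc ‖y‖ ^ n * ‖u y‖ ≤ c * (‖y‖ ^ n * ‖y‖) := h3
      _ = ‖y‖ ^ n * (c * ‖y‖) := by ring
  have h2 : Tendsto (fun y : ℂ => c * ‖y‖) (𝓝[≠] 0) (𝓝 0) := by
    have h3 : Tendsto (fun y : ℂ => c * ‖y‖) (𝓝 0) (𝓝 (c * ‖(0 : ℂ)‖)) := (continuous_const.mul continuous_norm).tendsto 0
    rw [norm_zero, mul_zero] at h3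
    exact h3.mono_left nhdsWithin_le_nhds
  have h3 : Tendsto (fun y : ℂ => ‖u y‖) (𝓝[≠] 0) (𝓝 ‖u 0‖) := hu.continuousAt.norm.tendsto.mono_left nhdsWithin_le_nhds
  have h4 : ‖u 0‖ ≤ 0 := le_of_tendsto_of_tendsto h3 h2 h1
  exact hu0 (norm_le_zero_iff.1 h4)

theorem Jet.restrict {f : ℂ × ℂ → ℂ} (hf : AnalyticAt ℂ f 0) {s : R2} (h : Jet f s) (hs : ∀ j, cf s 0 j = 0) :
    ∀ᶠ y in 𝓝 (0 : ℂ), f (0, y) = 0 := by
  have hin : AnalyticAt ℂ (fun y : ℂ => ((0, y) : ℂ × ℂ)) 0 := analyticAt_const.prod analyticAt_id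
  refine eventually_zero_of_isBigO (AnalyticAt.comp (g := f) (f := fun y : ℂ => ((0, y) : ℂ × ℂ)) hf hin) fun N => ?_
  obtain ⟨P, h1, h2⟩ := h N
  have ht : Tendsto (fun y : ℂ => ((0, y) : ℂ × ℂ)) (𝓝 0) (𝓝 0) := hin.continuousAt.tendsto
  have hnorm : ∀ y : ℂ, ‖((0, y) : ℂ × ℂ)‖ = ‖y‖ := fun y => by
    rw [Prod.norm_def, norm_zero, max_eq_right (norm_nonneg _)]
  have h3 : (fun y : ℂ => f (0, y) - MvPolynomial.eval ![0, y] P) =O[𝓝 0] fun y => ‖y‖ ^ N := by
    refine (h2.comp_tendsto ht).congr_right fun y => ?_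
    rw [Function.comp_apply, hnorm]
  have h4 : (fun y : ℂ => MvPolynomial.eval ![0, y] P) =O[𝓝 0] fun y => ‖y‖ ^ N := by
    simp only [eval_fin2]
    refine IsBigO.fun_sum fun d hd => ?_
    refine IsBigO.const_mul_left ?_ _
    by_cases hd0 : d 0 = 0
    · have h5 : N ≤ d 1 := by
        by_contra hlt
        push Not at hlt
        have h6 := h1 0 (d 1) (by omega)
        rw [cf_sub, hs, zero_sub, neg_eq_zero, cf_coe] at h6
        have h7 : ex 0 (d 1) = d := by rw [← hd0]; exact ex_eq d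
        rw [h7] at h6
        exact (MvPolynomial.mem_support_iff.1 hd) h6
      refine IsBigO.of_bound 1 ?_
      filter_upwards [Metric.ball_mem_nhds (0 : ℂ) one_pos] with y hy
      rw [mem_ball_zero_iff] at hy
      rw [hd0, pow_zero, one_mul, one_mul, norm_pow, norm_pow, norm_norm]
      exact pow_le_pow_of_le_one (norm_nonneg _) hy.le h5
    · simp only [zero_pow hd0, zero_mul]
      exact isBigO_zero _ _
  refine (h3.add h4).congr_left fun y => ?_
  show f (0, y) - MvPolynomial.eval ![0, y] P + MvPolynomial.eval ![0, y] P = f (0, y)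
  ring

/-- **Exact division by a power of `x`.** -/
theorem Jet.exists_div {f : ℂ × ℂ → ℂ} (hf : AnalyticAt ℂ f 0) {e : ℕ} {u : R2} (h : Jet f (X 0 ^ e * u)) :
    ∃ g : ℂ × ℂ → ℂ, AnalyticAt ℂ g 0 ∧ (∀ᶠ p in 𝓝 0, f p = p.1 ^ e * g p) ∧ Jet g u := by
  by_cases hz : ∀ᶠ p in 𝓝 (0 : ℂ × ℂ), f p = 0
  · have h1 : Jet f 0 := jet_zero.congr (by filter_upwards [hz] with p hp; rw [hp])
    have h2 := h.unique h1
    have h3 : u = 0 := by
      refine cf_ext fun i j => ?_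
      have h4 : cf (X 0 ^ e * u) (i + e) j = cf (0 : R2) (i + e) j := by rw [h2]
      rw [cf_X0_pow_mul, if_pos (by omega), Nat.add_sub_cancel] at h4
      rw [h4, cf, cf, map_zero, map_zero]
    refine ⟨fun _ => 0, analyticAt_const, ?_, ?_⟩
    · filter_upwards [hz] with p hp
      rw [hp, mul_zero]
    · rw [h3]
      exact jet_zero
  obtain ⟨a, g', hg', hgk, hgn⟩ := H22.HF.exists_div hf hz
  obtain ⟨v, hv⟩ := exists_jet hg'
  have h1 : Jet f (X 0 ^ a * v) := ((jet_fst_pow a).mul hv).congr (by filter_upwards [hgk] with p hp; rw [hp])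
  have h2 := h.unique h1
  obtain ⟨j, hj⟩ : ∃ j, cf v 0 j ≠ 0 := by
    by_contra hcon
    push Not at hcon
    exact hgn (hv.restrict hg' hcon)
  have hea : e ≤ a := by
    by_contra hlt
    push Not at hlt
    have h3 : cf (X 0 ^ e * u) a j = cf (X 0 ^ a * v) a j := by rw [h2]
    rw [cf_X0_pow_mul, cf_X0_pow_mul, if_neg (by omega), if_pos le_rfl, Nat.sub_self] at h3
    exact hj h3.symm
  have h3 : u = X 0 ^ (a - e) * v := by
    refine cf_ext fun i j => ?_
    have h4 : cf (X 0 ^ e * u) (i + e) j = cf (X 0 ^ a * v) (i + e) j := by rw [h2]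
    rw [cf_X0_pow_mul, cf_X0_pow_mul, if_pos (by omega), Nat.add_sub_cancel] at h4
    rw [h4, cf_X0_pow_mul]
    by_cases h5 : a ≤ i + e
    · rw [if_pos h5, if_pos (by omega)]
      congr 1
      omega
    · rw [if_neg h5, if_neg (by omega)]
  refine ⟨fun p => p.1 ^ (a - e) * g' p, (analyticAt_fst.pow _).mul hg', ?_, ?_⟩
  · filter_upwards [hgk] with p hp
    rw [hp, ← mul_assoc, ← pow_add]
    congr 2
    omega
  · rw [h3]
    exact (jet_fst_pow _).mul hv

end Pool.Agent.SB
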