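import Pool.Agent.SB.Mu
import Pool.Agent.SB.An.Ops
import Pool.Agent.SB.An.Bez

/-!
# SB/An TreeR: from the reduction of formal germs to the reduction of analytic germs
-/

set_option autoImplicit false

open Topology MvPowerSeries Asymptotics Filter

noncomputable section

namespace Pool.Agent.SB

theorem exists_cf_ne {A : R2} (h : A ≠ 0) : ∃ i j, cf A i j ≠ 0 := by
  by_contra hcon
  push Not at hcon
  exact h (cf_ext fun i j => by rw [hcon, cf, map_zero])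

/-- the order -/
theorem exists_ord {A : R2} (h : A ≠ 0) : ∃ l, Ord l A ∧ ¬ Ord (l + 1) A := by
  classical
  obtain ⟨i, j, hij⟩ := exists_cf_ne h
  have hex : ∃ n, ¬ Ord n A := ⟨i + j + 1, fun h => hij (h i j (by omega))⟩
  have h1 := Nat.find_spec hex
  have h2 : Nat.find hex ≠ 0 := by
    intro h0
    rw [h0] at h1
    exact h1 fun i j hij => absurd hij (by omega)
  obtain ⟨l, hl⟩ := Nat.exists_eq_succ_of_ne_zero h2
  refine ⟨l, ?_, ?_⟩
  · by_contra h3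
    have := Nat.find_min' hex h3
    omega
  · rw [hl] at h1
    exact h1

theorem bl_ne_zero {A : R2} (h : A ≠ 0) (t : ℂ) : bl t A ≠ 0 := by
  obtain ⟨l, h1, h2⟩ := exists_ord h
  obtain ⟨u, hu⟩ := exists_bl t h1
  intro h3
  rw [h3] at hu
  have h4 : X 0 ∣ u := by
    rw [X0_dvd_iff]
    intro j
    have h5 : cf (X 0 ^ l * u) l j = cf (0 : R2) l j := by rw [hu]
    rw [cf_X0_pow_mul, if_pos le_rfl, Nat.sub_self] at h5
    rw [h5, cf, map_zero]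
  exact h2 (ord_succ_of_dvd h1 (by rw [hu, h3]) h4)

/-- the formal child exists -/
theorem exists_child (t : ℂ) {A B : R2} (h : A ≠ 0 ∨ B ≠ 0) (hA : cf A 0 0 = 0) (hB : cf B 0 0 = 0) :
    ∃ A₁ B₁, Child t A B A₁ B₁ := by
  classical
  have hd : ∀ {D : R2}, cf D 0 0 = 0 → X 0 ∣ bl t D := fun {D} hD => by
    rw [X0_dvd_iff]
    intro j
    rw [cf_bl]
    simp [hD]
  have hdw : X 0 ∣ bl t B - (X 1 + C t) * bl t A := dvd_sub (hd hB) ((hd hA).mul_left _)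
  obtain ⟨w, hw⟩ := hdw
  have hne : bl t A ≠ 0 ∨ w ≠ 0 := by
    by_contra hcon
    push Not at hcon
    rw [hcon.1, hcon.2, mul_zero, mul_zero, sub_zero] at hw
    rcases h with h | h
    · exact bl_ne_zero h t hcon.1
    · exact bl_ne_zero h t hw
  have hbd : ∃ n, ∀ e, X 0 ^ e ∣ bl t A → X 0 ^ e ∣ w → e ≤ n := by
    rcases hne with hne | hne
    · obtain ⟨i, j, hij⟩ := exists_cf_ne hne
      refine ⟨i, fun e he _ => ?_⟩
      by_contra hlt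
      exact hij ((X0_pow_dvd_iff e _).1 he i j (by omega))
    · obtain ⟨i, j, hij⟩ := exists_cf_ne hne
      refine ⟨i, fun e _ he => ?_⟩
      by_contra hlt
      exact hij ((X0_pow_dvd_iff e _).1 he i j (by omega))
  obtain ⟨n, hn⟩ := hbd
  let Pr : ℕ → Prop := fun e => X 0 ^ e ∣ bl t A ∧ X 0 ^ e ∣ w
  have hP0 : Pr 0 := by
    constructor
    · rw [pow_zero]; exact one_dvd _
    · rw [pow_zero]; exact one_dvd _
  have hspec : Pr (Nat.findGreatest Pr n) := Nat.findGreatest_spec (Nat.zero_le n) hP0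
  set e := Nat.findGreatest Pr n with he
  obtain ⟨⟨A₁, h1⟩, ⟨B₁, h2⟩⟩ := hspec
  refine ⟨A₁, B₁, e, h1.symm, ?_, ?_⟩
  · rw [hw, h2]
    ring
  · rintro ⟨⟨a', ha'⟩, ⟨b', hb'⟩⟩
    have h3 : Pr (e + 1) := ⟨⟨a', by rw [h1, ha']; ring⟩, ⟨b', by rw [h2, hb']; ring⟩⟩
    have h4 : e + 1 ≤ n := hn _ h3.1 h3.2
    have h5 : ¬ Pr (e + 1) := Nat.findGreatest_is_greatest (P := Pr) (n := n) (by rw [← he]; omega) h4
    exact h5 h3

/-- the analytic child -/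
theorem exists_aChild (t : ℂ) {a b : ℂ × ℂ → ℂ} (ha : AnalyticAt ℂ a 0) (hb : AnalyticAt ℂ b 0) {A B A₁ B₁ : R2}
    (hA : Jet a A) (hB : Jet b B) (h : Child t A B A₁ B₁) :
    ∃ (a₁ b₁ : ℂ × ℂ → ℂ) (e : ℕ), AChild t a b a₁ b₁ e ∧ AnalyticAt ℂ a₁ 0 ∧ AnalyticAt ℂ b₁ 0 ∧ Jet a₁ A₁ ∧ Jet b₁ B₁ := by
  obtain ⟨e, h1, h2, -⟩ := h
  have ha' : AnalyticAt ℂ (fun p => a (bt t p)) 0 :=
    AnalyticAt.comp (g := a) (f := bt t) (by rw [bt_zero]; exact ha) (bt_analytic t 0)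
  have hb' : AnalyticAt ℂ (fun p => b (bt t p)) 0 :=
    AnalyticAt.comp (g := b) (f := bt t) (by rw [bt_zero]; exact hb) (bt_analytic t 0)
  have hJa : Jet (fun p => a (bt t p)) (X 0 ^ e * A₁) := by
    rw [h1]
    exact hA.bl t
  have hJb : Jet (fun p => b (bt t p) - (p.2 + t) * a (bt t p)) (X 0 ^ (e + 1) * B₁) := by
    rw [h2]
    exact (hB.bl t).sub ((jet_snd.add (jet_const t)).mul (hA.bl t))
  obtain ⟨a₁, h3, h4, h5⟩ := hJa.exists_div ha'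
  obtain ⟨b₁, h6, h7, h8⟩ := hJb.exists_div (hb'.sub ((analyticAt_snd.add analyticAt_const).mul ha'))
  exact ⟨a₁, b₁, e, ⟨h4, h7⟩, h3, h6, h5, h8⟩

theorem child_ne {t : ℂ} {A B A₁ B₁ : R2} (h : Child t A B A₁ B₁) : A₁ ≠ 0 ∨ B₁ ≠ 0 := by
  obtain ⟨e, -, -, h3⟩ := h
  by_contra hcon
  push Not at hcon
  exact h3 ⟨by rw [hcon.1]; exact dvd_zero _, by rw [hcon.2]; exact dvd_zero _⟩

theorem sw_zero : sw (0 : R2) = 0 := map_zero _

/-- **The tree of an analytic germ from the tree of its Taylor series.** -/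
theorem tree_of_red {A B : R2} (h : Red A B) : (A ≠ 0 ∨ B ≠ 0) → ∀ a b : ℂ × ℂ → ℂ, AnalyticAt ℂ a 0 → AnalyticAt ℂ b 0 →
    Jet a A → Jet b B → Tree a b := by
  induction h with
  | reg A B h =>
    intro _ a b ha hb hA hB
    refine Tree.reg a b ha hb ?_
    rw [hA.apply_zero, hB.apply_zero]
    exact h
  | elem A B h =>
    intro _ a b ha hb hA hB
    refine Tree.elem a b ha hb ?_
    obtain ⟨h1, h2, l, k, h3, h4, h5, h6⟩ := h
    refine ⟨by rw [hA.apply_zero, h1], by rw [hB.apply_zero, h2], l, k, ?_, ?_, h5, h6⟩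
    · rw [hA.fderiv_fst, hB.fderiv_snd]
      exact h3
    · rw [hA.fderiv_fst, hA.fderiv_snd, hB.fderiv_fst, hB.fderiv_snd]
      exact h4
  | blow A B _ _ ih1 ih2 =>
    intro hne a b ha hb hA hB
    by_cases h0 : cf A 0 0 ≠ 0 ∨ cf B 0 0 ≠ 0
    · refine Tree.reg a b ha hb ?_
      rw [hA.apply_zero, hB.apply_zero]
      exact h0
    push Not at h0
    have hch : ∀ t : ℂ, ∃ (a₁ b₁ : ℂ × ℂ → ℂ) (e : ℕ), AChild t a b a₁ b₁ e ∧ Tree a₁ b₁ := by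
      intro t
      obtain ⟨A₁, B₁, hc⟩ := exists_child t hne h0.1 h0.2
      obtain ⟨a₁, b₁, e, h1, h2, h3, h4, h5⟩ := exists_aChild t ha hb hA hB hc
      exact ⟨a₁, b₁, e, h1, ih1 t A₁ B₁ hc (child_ne hc) a₁ b₁ h2 h3 h4 h5⟩
    choose a₁ b₁ e h1 h2 using hch
    have hsw : AnalyticAt ℂ (fun p : ℂ × ℂ => p.swap) 0 := analyticAt_snd.prod analyticAt_fst
    have hsa : AnalyticAt ℂ (fun p : ℂ × ℂ => a p.swap) 0 :=
      AnalyticAt.comp (g := a) (f := fun p : ℂ × ℂ => p.swap) ha hsw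
    have hsb : AnalyticAt ℂ (fun p : ℂ × ℂ => b p.swap) 0 :=
      AnalyticAt.comp (g := b) (f := fun p : ℂ × ℂ => p.swap) hb hsw
    have hne' : sw B ≠ 0 ∨ sw A ≠ 0 := by
      have hinj : ∀ D : R2, D ≠ 0 → sw D ≠ 0 := fun D hD h => hD (by rw [← sw_sw D, h, sw_zero])
      rcases hne with hne | hne
      · exact Or.inr (hinj A hne)
      · exact Or.inl (hinj B hne)
    obtain ⟨A₂, B₂, hc⟩ := exists_child 0 hne' (by rw [cf_sw]; exact h0.2) (by rw [cf_sw]; exact h0.1)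
    obtain ⟨a₂, b₂, e₂, h3, h4, h5, h6, h7⟩ := exists_aChild 0 hsb hsa hB.sw hA.sw hc
    exact Tree.blow a b a₁ b₁ e a₂ b₂ e₂ ha hb h1 h2 h3 (ih2 A₂ B₂ hc (child_ne hc) a₂ b₂ h4 h5 h6 h7)

/-! ### isolated zeros -/

theorem fin2_one (A : R2) : Fin2 1 A := by
  have h1 : Ideal.span {(1 : R2), A} = ⊤ := Ideal.eq_top_of_isUnit_mem _ (Ideal.subset_span (by simp)) isUnit_one
  unfold Fin2
  rw [h1]
  have : Subsingleton (R2 ⧸ (⊤ : Ideal R2)) := Ideal.Quotient.subsingleton_iff.2 rfl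
  infer_instance

theorem fin2_X0_pow {A : R2} {n : ℕ} (h : cf A 0 n ≠ 0) (M : ℕ) : Fin2 (X 0 ^ M) A := by
  induction M with
  | zero =>
    rw [pow_zero]
    exact fin2_one A
  | succ M ih =>
    rw [pow_succ]
    exact (mu_mul ih (mu_X0 h).1).1

theorem fin2_of_bezout {A B H K : R2} {M n : ℕ} (h : cf A 0 n ≠ 0) (hM : (X 0 ^ M : R2) = A * H + B * K) : Fin2 A B := by
  refine (Mu.of_le (I := Ideal.span {X 0 ^ M, A}) ?_ (fin2_X0_pow h M)).1
  rw [Ideal.span_le]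
  intro z hz
  have hA : A ∈ Ideal.span {A, B} := Ideal.subset_span (by simp)
  have hB : B ∈ Ideal.span {A, B} := Ideal.subset_span (by simp)
  rcases hz with rfl | hz
  · rw [SetLike.mem_coe, hM]
    exact Ideal.add_mem _ (Ideal.mul_mem_right _ _ hA) (Ideal.mul_mem_right _ _ hB)
  · rw [Set.mem_singleton_iff] at hz
    rw [hz]
    exact hA

theorem fin2_aux {a b : ℂ × ℂ → ℂ} (ha : AnalyticAt ℂ a 0) (hb : AnalyticAt ℂ b 0)
    (hiso : ∀ᶠ p in 𝓝 (0 : ℂ × ℂ), p ≠ 0 → a p ≠ 0 ∨ b p ≠ 0) {A B : R2} (hA : Jet a A) (hB : Jet b B)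
    (h0 : ¬ ∀ᶠ y in 𝓝 (0 : ℂ), a (0, y) = 0) : Fin2 A B ∧ A ≠ 0 := by
  obtain ⟨n, hn⟩ : ∃ n, cf A 0 n ≠ 0 := by
    by_contra hcon
    push Not at hcon
    exact h0 (hA.restrict ha hcon)
  obtain ⟨M, h, k, hh, hk, hM⟩ := Bez.exists_bezout ha hb h0 hiso
  obtain ⟨H, hH⟩ := exists_jet hh
  obtain ⟨K, hK⟩ := exists_jet hk
  have h1 : Jet (fun p => p.1 ^ M) (A * H + B * K) := by
    refine ((hA.mul hH).add (hB.mul hK)).congr ?_
    filter_upwards [hM] with p hp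
    rw [hp]
  refine ⟨fin2_of_bezout hn ((jet_fst_pow M).unique h1), ?_⟩
  rintro rfl
  rw [cf, map_zero] at hn
  exact hn rfl

theorem fin2_comm {A B : R2} (h : Fin2 A B) : Fin2 B A := by
  have h1 : Ideal.span {B, A} = Ideal.span {A, B} := by rw [Set.pair_comm]
  unfold Fin2
  rw [h1]
  exact h

/-- the Taylor series of two germs with an isolated common zero have finite multiplicity -/
theorem fin2_of_isolated {a b : ℂ × ℂ → ℂ} (ha : AnalyticAt ℂ a 0) (hb : AnalyticAt ℂ b 0)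
    (hiso : ∀ᶠ p in 𝓝 (0 : ℂ × ℂ), p ≠ 0 → a p ≠ 0 ∨ b p ≠ 0) {A B : R2} (hA : Jet a A) (hB : Jet b B) :
    Fin2 A B ∧ (A ≠ 0 ∨ B ≠ 0) := by
  by_cases h0 : ∀ᶠ y in 𝓝 (0 : ℂ), a (0, y) = 0
  · have h1 : ¬ ∀ᶠ y in 𝓝 (0 : ℂ), b (0, y) = 0 := by
      intro h1
      have ht : Tendsto (fun y : ℂ => ((0, y) : ℂ × ℂ)) (𝓝 0) (𝓝 0) := by
        have h2 : Continuous fun x : ℂ => ((0, x) : ℂ × ℂ) := by fun_prop
        exact h2.tendsto 0
      have h3 : ∀ᶠ y in 𝓝[≠] (0 : ℂ), False := by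
        rw [eventually_nhdsWithin_iff]
        filter_upwards [h0, h1, ht.eventually hiso] with y h4 h5 h6 hy
        rcases h6 (fun h => hy (congrArg Prod.snd h)) with h7 | h7
        · exact h7 h4
        · exact h7 h5
      exact h3.exists.elim fun _ h => h
    obtain ⟨h2, h3⟩ := fin2_aux hb ha (hiso.mono fun p hp hp0 => (hp hp0).symm) hB hA h1
    exact ⟨fin2_comm h2, Or.inr h3⟩
  · obtain ⟨h2, h3⟩ := fin2_aux ha hb hiso hA hB h0
    exact ⟨h2, Or.inl h3⟩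

/-- **Seidenberg for analytic germs, from the formal theorem.** -/
theorem tree_of_isolated' (hred : ∀ A B : R2, Fin2 A B → Red A B) {a b : ℂ × ℂ → ℂ} (ha : AnalyticAt ℂ a 0)
    (hb : AnalyticAt ℂ b 0) (hiso : ∀ᶠ p in 𝓝 (0 : ℂ × ℂ), p ≠ 0 → a p ≠ 0 ∨ b p ≠ 0) : Tree a b := by
  obtain ⟨A, hA⟩ := exists_jet ha
  obtain ⟨B, hB⟩ := exists_jet hb
  obtain ⟨h1, h2⟩ := fin2_of_isolated ha hb hiso hA hB
  exact tree_of_red (hred A B h1) h2 a b ha hb hA hB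

end Pool.Agent.SB
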