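import Pool.Agent.SB.Defs

/-!
# SB/An: reduction of singularities, analytic side: definitions

`Jet f s`: the formal power series `s` is the Taylor series of `f` at `0`.
`Tree a b`: the germ at `0` of the vector field `v x = a`, `v y = b` (`a`, `b` analytic at `0`) is reduced by finitely many
blow-ups; the transforms are taken in the coordinates `(x, y)`, old `y = x (y + t)`, and the same with `x`, `y` exchanged.
-/

set_option autoImplicit false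

open Topology

noncomputable section

namespace Pool.Agent.SB

/-- `s` is the Taylor series of `f` at `0` -/
def Jet (f : ℂ × ℂ → ℂ) (s : R2) : Prop :=
  ∀ N : ℕ, ∃ P : MvPolynomial (Fin 2) ℂ, Ord N (s - (P : R2)) ∧
    (fun p : ℂ × ℂ => f p - MvPolynomial.eval ![p.1, p.2] P) =O[𝓝 0] fun p => ‖p‖ ^ N

/-- `(a₁, b₁)` is a transform of `(a, b)` at the point `t` of the exceptional line -/
def AChild (t : ℂ) (a b a₁ b₁ : ℂ × ℂ → ℂ) (e : ℕ) : Prop :=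
  (∀ᶠ p : ℂ × ℂ in 𝓝 0, a (p.1, p.1 * (p.2 + t)) = p.1 ^ e * a₁ p) ∧
  (∀ᶠ p : ℂ × ℂ in 𝓝 0, b (p.1, p.1 * (p.2 + t)) - (p.2 + t) * a (p.1, p.1 * (p.2 + t)) =
    p.1 ^ (e + 1) * b₁ p)

/-- elementary and reduced: the linear part has the eigenvalues `l ≠ 0` and `k`, and `k / l` is not a positive rational number -/
def AElem (a b : ℂ × ℂ → ℂ) : Prop :=
  a 0 = 0 ∧ b 0 = 0 ∧ ∃ l k : ℂ, l + k = fderiv ℂ a 0 (1, 0) + fderiv ℂ b 0 (0, 1) ∧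
    l * k = fderiv ℂ a 0 (1, 0) * fderiv ℂ b 0 (0, 1) - fderiv ℂ a 0 (0, 1) * fderiv ℂ b 0 (1, 0) ∧
    l ≠ 0 ∧ ∀ p q : ℕ, 0 < p → 0 < q → (p : ℂ) * l ≠ q * k

/-- reducible by finitely many blow-ups -/
inductive Tree : (ℂ × ℂ → ℂ) → (ℂ × ℂ → ℂ) → Prop
  | reg (a b : ℂ × ℂ → ℂ) : AnalyticAt ℂ a 0 → AnalyticAt ℂ b 0 → (a 0 ≠ 0 ∨ b 0 ≠ 0) → Tree a b
  | elem (a b : ℂ × ℂ → ℂ) : AnalyticAt ℂ a 0 → AnalyticAt ℂ b 0 → AElem a b → Tree a b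
  | blow (a b : ℂ × ℂ → ℂ) (a₁ b₁ : ℂ → ℂ × ℂ → ℂ) (e : ℂ → ℕ) (a₂ b₂ : ℂ × ℂ → ℂ) (e₂ : ℕ) :
      AnalyticAt ℂ a 0 → AnalyticAt ℂ b 0 → (∀ t, AChild t a b (a₁ t) (b₁ t) (e t)) → (∀ t, Tree (a₁ t) (b₁ t)) →
      AChild 0 (fun p => b p.swap) (fun p => a p.swap) a₂ b₂ e₂ → Tree a₂ b₂ → Tree a b

end Pool.Agent.SB
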