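import Pool.Agent.SB.Stub
import Pool.Agent.SB.An.Defs

/-!
# SB/An Stub: the statements of the analytic side
-/

set_option autoImplicit false

open Topology MvPowerSeries

noncomputable section

namespace Pool.Agent.SB

/-! ### An/Ex (existence of the Taylor series).  Proof: `HasFPowerSeriesAt.isBigO_sub_partialSum_pow`; `p n (fun _ => z)` with
`z = z.1 • (1, 0) + z.2 • (0, 1)`, `MultilinearMap.map_add_univ`, `map_smul_univ`: `P = ∑_{n < N}, ∑_{s : Finset (Fin n)},
c_s X 0 ^ #s X 1 ^ (n - #s)`, `s = ` the series with the coefficients `cf s i j = ∑_{#s = i} p (i + j) (s.piecewise (1, 0) (0, 1))`. -/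

theorem exists_jet {f : ℂ × ℂ → ℂ} (hf : AnalyticAt ℂ f 0) : ∃ s : R2, Jet f s := by sorry

/-! ### An/Un (uniqueness).  Proof: the difference of the two polynomials is `Q = O(‖p‖ ^ N)`; for every `z` the polynomial
`τ ↦ Q (τ z)` is `O(|τ| ^ N)`, so its coefficient of `τ ^ m`, `m < N`, which is the homogeneous component `Q_m (z)`, is `0`;
`MvPolynomial.funext`. -/

theorem ord_of_isBigO {Q : MvPolynomial (Fin 2) ℂ} {N : ℕ}
    (h : (fun p : ℂ × ℂ => MvPolynomial.eval ![p.1, p.2] Q) =O[𝓝 0] fun p => ‖p‖ ^ N) : Ord N (Q : R2) := by sorry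

theorem Jet.unique {f : ℂ × ℂ → ℂ} {s s' : R2} (h : Jet f s) (h' : Jet f s') : s = s' := by sorry

end Pool.Agent.SB
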